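import Pool.Agent.V5helper57.Hyp.Mom3

/-!
# Singular members of the families are rare; the two moments of the local factor
-/

set_option autoImplicit false

namespace Pool.Agent.V5helper57.Hyp

open Finset Polynomial
open Pool.Agent.N647.NG (ch ch_abs sum_ch sum_ch_affine card_sqrt sum_shift weil_odd)

section
variable {F : Type} [Field F] [Fintype F] [DecidableEq F]

/-- A pencil has few singular members. -/
theorem pencil {f A : F[X]} {N r : ℕ} (hf : f.Monic) (hfd : f.natDegree = N + 1) (hA : A.Monic) (hAd : A.natDegree = r)
    (hAs : A.Separable) (hne : ((N + 1 : ℕ) : F) ≠ (r : F)) (P : F → Prop) [DecidablePred P]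
    (hP : ∀ s, P s → ¬ Squarefree (f + C s * A)) : ((univ.filter P).card : ℝ) ≤ N + r := by
  classical
  obtain ⟨W, hW⟩ : ∃ W : F[X], W = derivative f * A - f * derivative A := ⟨_, rfl⟩
  have hd1 : (derivative f).natDegree ≤ N := by
    have := natDegree_derivative_le f
    omega
  have hWd : W.natDegree ≤ N + r := by
    rw [hW]
    refine (natDegree_sub_le _ _).trans (max_le ?_ ?_)
    · refine natDegree_mul_le.trans ?_
      omega
    · rcases Nat.eq_zero_or_pos r with h | h
      · have : A = 1 := hA.natDegree_eq_zero.1 (by rw [hAd, h])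
        rw [this, derivative_one, mul_zero, natDegree_zero]
        exact Nat.zero_le _
      · refine natDegree_mul_le.trans ?_
        have := natDegree_derivative_le A
        omega
  have hWc : W.coeff (N + r) = ((N + 1 : ℕ) : F) - r := by
    rw [hW, coeff_sub]
    congr 1
    · rw [coeff_mul_add_eq_of_natDegree_le hd1 hAd.le, coeff_derivative]
      have h1 : f.coeff (N + 1) = 1 := by rw [← hfd]; exact hf
      have h3 : A.coeff r = 1 := by rw [← hAd]; exact hA
      rw [h1, h3]
      push_cast
      ring
    · rcases Nat.eq_zero_or_pos r with h | h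
      · have : A = 1 := hA.natDegree_eq_zero.1 (by rw [hAd, h])
        rw [this, derivative_one, mul_zero, coeff_zero, h, Nat.cast_zero]
      · obtain ⟨r', rfl⟩ : ∃ r', r = r' + 1 := ⟨r - 1, by omega⟩
        have e : N + (r' + 1) = (N + 1) + r' := by ring
        rw [e, coeff_mul_add_eq_of_natDegree_le hfd.le (by have := natDegree_derivative_le A; omega), coeff_derivative]
        have h1 : f.coeff (N + 1) = 1 := by rw [← hfd]; exact hf
        have h3 : A.coeff (r' + 1) = 1 := by rw [← hAd]; exact hA
        rw [h1, h3]
        push_cast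
        ring
  have hW0 : W ≠ 0 := by
    intro h
    rw [h, coeff_zero] at hWc
    exact hne (sub_eq_zero.1 hWc.symm)
  -- the common roots
  have hroot : ∀ s, P s → ∃ x : AlgebraicClosure F, aeval x (f + C s * A) = 0 ∧ aeval x (derivative (f + C s * A)) = 0 := by
    intro s hs
    have h1 : ¬ (f + C s * A).Separable := fun h => hP s hs ((PerfectField.separable_iff_squarefree).1 h)
    rw [separable_def, isCoprime_iff_aeval_ne_zero_of_isAlgClosed F (AlgebraicClosure F)] at h1
    push Not at h1
    exact h1
  have hAroot : ∀ x : AlgebraicClosure F, ¬ (aeval x A = 0 ∧ aeval x (derivative A) = 0) := by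
    intro x hx
    rw [separable_def, isCoprime_iff_aeval_ne_zero_of_isAlgClosed F (AlgebraicClosure F)] at hAs
    rcases hAs x with h | h
    · exact h hx.1
    · exact h hx.2
  obtain ⟨ξ, hξ⟩ : ∃ ξ : F → AlgebraicClosure F, ∀ s, P s → aeval (ξ s) (f + C s * A) = 0 ∧ aeval (ξ s) (derivative (f + C s * A)) = 0 := by
    choose! ξ hξ using hroot
    exact ⟨ξ, hξ⟩
  have hval : ∀ s, P s → aeval (ξ s) f + algebraMap F _ s * aeval (ξ s) A = 0 ∧
      aeval (ξ s) (derivative f) + algebraMap F _ s * aeval (ξ s) (derivative A) = 0 := by
    intro s hs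
    obtain ⟨h1, h3⟩ := hξ s hs
    constructor
    · rw [map_add, map_mul, aeval_C] at h1
      exact h1
    · rw [derivative_add, derivative_C_mul, map_add, map_mul, aeval_C] at h3
      exact h3
  have hmap0 : W.map (algebraMap F (AlgebraicClosure F)) ≠ 0 := (Polynomial.map_ne_zero_iff (algebraMap F _).injective).2 hW0
  have hle : (univ.filter P).card ≤ (W.map (algebraMap F (AlgebraicClosure F))).roots.toFinset.card := by
    refine card_le_card_of_injOn ξ ?_ ?_
    · intro s hs
      rw [mem_coe, mem_filter] at hs
      rw [mem_coe, Multiset.mem_toFinset, mem_roots hmap0, IsRoot, eval_map_algebraMap, hW, map_sub, map_mul, map_mul]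
      obtain ⟨h1, h3⟩ := hval s hs.2
      linear_combination (aeval (ξ s) A) * h3 - (aeval (ξ s) (derivative A)) * h1
    · intro s hs s' hs' h
      rw [mem_coe, mem_filter] at hs hs'
      by_contra hss
      have hne' : algebraMap F (AlgebraicClosure F) (s - s') ≠ 0 := by
        intro h0
        apply hss
        exact sub_eq_zero.1 ((algebraMap F (AlgebraicClosure F)).injective (h0.trans (map_zero _).symm))
      obtain ⟨h1, h3⟩ := hval s hs.2
      obtain ⟨h1', h3'⟩ := hval s' hs'.2
      rw [← h] at h1' h3'
      apply hAroot (ξ s)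
      constructor
      · have h4 : algebraMap F (AlgebraicClosure F) (s - s') * aeval (ξ s) A = 0 := by
          rw [map_sub]
          linear_combination h1 - h1'
        exact (mul_eq_zero.1 h4).resolve_left hne'
      · have h4 : algebraMap F (AlgebraicClosure F) (s - s') * aeval (ξ s) (derivative A) = 0 := by
          rw [map_sub]
          linear_combination h3 - h3'
        exact (mul_eq_zero.1 h4).resolve_left hne'
  have h5 : (univ.filter P).card ≤ N + r := by
    refine hle.trans ((Multiset.toFinset_card_le _).trans ((card_roots' _).trans ?_))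
    rw [natDegree_map]
    exact hWd
  exact_mod_cast h5

variable {g r m : ℕ}

/-- **Singular members are rare.** -/
theorem bad_cnt (hg : 1 ≤ g) (hr : r ≤ 2 * g) (hm : m = 3 * g + 2) (hch : 2 * g + 1 < ringChar F)
    (B : (Fin m → F) → Prop) [DecidablePred B] (hB : ∀ t, B t → ¬ Squarefree (fam g r (ex t))) :
    ((univ.filter B).card : ℝ) * Fintype.card F ≤ (r ^ 2 + (2 * g + r)) * (Fintype.card F : ℝ) ^ m := by
  classical
  obtain ⟨q, hq⟩ : ∃ q : ℝ, q = Fintype.card F := ⟨_, rfl⟩
  have hq0 : 0 < q := by rw [hq]; exact_mod_cast Fintype.card_pos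
  obtain ⟨B1, hB1⟩ : ∃ B1 : ℕ → ℕ → (Fin m → F) → Prop, B1 = fun i j t => ex t i = ex t j := ⟨_, rfl⟩
  have hc1 : ∀ i < r, ∀ j < r, i ≠ j → ((univ.filter (B1 i j)).card : ℝ) * q ≤ q ^ m := by
    intro i hi j hj hij
    have h3 := cnt_le (B1 i j) (dir m i 1 0) 1 fun t => by
      refine lin1 (ex t i - ex t j) one_ne_zero _ fun s hs => ?_
      rw [hB1] at hs
      simp only [ex_add, ex_dir (show i + 1 < m by omega)] at hs
      rw [if_pos trivial, if_neg hij.symm] at hs
      have : (if j = i + 1 then (0 : F) else 0) = 0 := by split_ifs <;> rfl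
      rw [this] at hs
      linear_combination hs
    rw [one_mul, ← hq] at h3
    exact h3
  obtain ⟨B2, hB2⟩ : ∃ B2 : (Fin m → F) → Prop, B2 = fun t => (∀ i < r, ∀ j < r, ex t i = ex t j → i = j) ∧ ¬ Squarefree (fam g r (ex t)) := ⟨_, rfl⟩
  have hne : ((2 * g + 1 : ℕ) : F) ≠ (r : F) := by
    intro h
    have h1 : ((2 * g + 1 - r : ℕ) : F) = 0 := by
      rw [Nat.cast_sub (by omega), h, sub_self]
    have h3 := (ringChar.spec F _).1 h1
    have h4 := Nat.le_of_dvd (by omega) h3
    omega
  have hc2 : ((univ.filter B2).card : ℝ) * q ≤ (2 * g + r) * q ^ m := by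
    have h3 := cnt_le B2 (dir m r 1 0) (2 * g + r) fun t => by
      by_cases hd : ∀ i < r, ∀ j < r, ex t i = ex t j → i = j
      · have h4 := fam_monic (R := F) hr (ex t)
        have h5 := pencil (f := fam g r (ex t)) (A := ∏ i ∈ range r, (X - C (ex t i))) (N := 2 * g) (r := r) h4.1 h4.2
          (monic_prod_X_sub_C _ _) (by rw [natDegree_finsetProd_X_sub_C_eq_card, card_range])
          (separable_prod_X_sub_C_iff'.2 fun i hi j hj h => hd i (mem_range.1 hi) j (mem_range.1 hj) h) hne
          (fun s => B2 (fun i => t i + s * dir m r 1 0 i)) (fun s hs => by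
            rw [hB2] at hs
            have h6 : fam g r (ex (fun i => t i + s * dir m r 1 0 i)) = fam g r (ex t) + C s * ∏ i ∈ range r, (X - C (ex t i)) := by
              unfold fam
              have e1 : ∀ i ∈ range r, (X - C (ex (fun i => t i + s * dir m r 1 0 i) i) : F[X]) = X - C (ex t i) := by
                intro i hi
                have := mem_range.1 hi
                rw [ex_add, ex_dir (show r + 1 < m by omega), if_neg (by omega), if_neg (by omega), mul_zero, add_zero]
              have e2 : ∀ j ∈ range (g + 1), (C (ex (fun i => t i + s * dir m r 1 0 i) (2 * g + 1 + j)) * X ^ j : F[X]) =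
                  C (ex t (2 * g + 1 + j)) * X ^ j := by
                intro j _
                rw [ex_add, ex_dir (show r + 1 < m by omega), if_neg (by omega)]
                have : (if 2 * g + 1 + j = r + 1 then (0 : F) else 0) = 0 := by split_ifs <;> rfl
                rw [this, mul_zero, add_zero]
              have e3 : ∑ j ∈ range (2 * g + 1 - r), (C (ex (fun i => t i + s * dir m r 1 0 i) (r + j)) * X ^ j : F[X]) =
                  ∑ j ∈ range (2 * g + 1 - r), C (ex t (r + j)) * X ^ j + C s := by
                have e4 : ∀ j ∈ range (2 * g + 1 - r), (C (ex (fun i => t i + s * dir m r 1 0 i) (r + j)) * X ^ j : F[X]) =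
                    C (ex t (r + j)) * X ^ j + (if j = 0 then C s else 0) := by
                  intro j _
                  rw [ex_add, ex_dir (show r + 1 < m by omega)]
                  rcases Nat.eq_zero_or_pos j with h | h
                  · subst h
                    rw [if_pos (by omega), if_pos rfl, mul_one, C_add, pow_zero]
                    ring
                  · rw [if_neg (show ¬ r + j = r by omega), if_neg (show ¬ j = 0 by omega)]
                    have : (if r + j = r + 1 then (0 : F) else 0) = 0 := by split_ifs <;> rfl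
                    rw [this, mul_zero, add_zero, add_zero]
                rw [sum_congr rfl e4, sum_add_distrib, sum_ite_eq', if_pos (mem_range.2 (by omega))]
              rw [prod_congr rfl e1, sum_congr rfl e2, e3]
              ring
            rw [← h6]
            exact hs.2)
        push_cast at h5
        exact h5
      · have h6 : (univ.filter fun s : F => B2 (fun i => t i + s * dir m r 1 0 i)) = ∅ := by
          rw [filter_eq_empty_iff]
          intro s _ hs
          rw [hB2] at hs
          apply hd
          intro i hi j hj h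
          apply hs.1 i hi j hj
          rw [ex_add, ex_add, ex_dir (show r + 1 < m by omega), ex_dir (show r + 1 < m by omega), if_neg (by omega), if_neg (by omega),
            if_neg (by omega), if_neg (by omega), h]
        rw [h6, card_empty, Nat.cast_zero]
        positivity
    rw [← hq] at h3
    exact h3
  have hunion : ((univ.filter B).card : ℝ) ≤ ∑ i ∈ range r, ∑ j ∈ range r, (if i ≠ j then ((univ.filter (B1 i j)).card : ℝ) else 0) +
      (univ.filter B2).card := by
    have h3 : ∀ t : Fin m → F, (if B t then (1 : ℝ) else 0) ≤ ∑ i ∈ range r, ∑ j ∈ range r, (if i ≠ j ∧ B1 i j t then (1 : ℝ) else 0) +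
        (if B2 t then 1 else 0) := by
      intro t
      have hz1 : 0 ≤ ∑ i ∈ range r, ∑ j ∈ range r, (if i ≠ j ∧ B1 i j t then (1 : ℝ) else 0) :=
        sum_nonneg fun i _ => sum_nonneg fun j _ => by split_ifs <;> norm_num
      have hz2 : (0 : ℝ) ≤ if B2 t then 1 else 0 := by split_ifs <;> norm_num
      by_cases hBt : B t
      · rw [if_pos hBt]
        by_cases hd : ∀ i < r, ∀ j < r, ex t i = ex t j → i = j
        · have : B2 t := by rw [hB2]; exact ⟨hd, hB t hBt⟩
          rw [if_pos this]
          linarith
        · push Not at hd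
          obtain ⟨i, hi, j, hj, h, hij⟩ := hd
          have hb : B1 i j t := by rw [hB1]; exact h
          have h4 : (1 : ℝ) ≤ ∑ i ∈ range r, ∑ j ∈ range r, (if i ≠ j ∧ B1 i j t then (1 : ℝ) else 0) := by
            calc (1 : ℝ) = if i ≠ j ∧ B1 i j t then (1 : ℝ) else 0 := by rw [if_pos ⟨hij, hb⟩]
              _ ≤ ∑ j ∈ range r, (if i ≠ j ∧ B1 i j t then (1 : ℝ) else 0) :=
                  single_le_sum (f := fun j => if i ≠ j ∧ B1 i j t then (1 : ℝ) else 0)
                    (fun k _ => by split_ifs <;> norm_num) (mem_range.2 hj)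
              _ ≤ _ := single_le_sum (f := fun i => ∑ j ∈ range r, (if i ≠ j ∧ B1 i j t then (1 : ℝ) else 0))
                    (fun k _ => sum_nonneg fun j _ => by split_ifs <;> norm_num) (mem_range.2 hi)
          linarith
      · rw [if_neg hBt]
        linarith
    have h4 := sum_le_sum (s := univ) fun t _ => h3 t
    rw [sum_boole, sum_add_distrib, sum_boole] at h4
    refine h4.trans (le_of_eq ?_)
    congr 1
    rw [sum_comm]
    refine sum_congr rfl fun i _ => ?_
    rw [sum_comm]
    refine sum_congr rfl fun j _ => ?_
    by_cases hij : i ≠ j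
    · rw [if_pos hij, ← sum_boole]
      refine sum_congr rfl fun t _ => ?_
      by_cases hb : B1 i j t
      · rw [if_pos ⟨hij, hb⟩, if_pos hb]
      · rw [if_neg (fun h => hb h.2), if_neg hb]
    · rw [if_neg hij]
      refine sum_eq_zero fun t _ => ?_
      rw [if_neg (fun h => hij h.1)]
  rw [← hq]
  calc ((univ.filter B).card : ℝ) * q ≤ (∑ i ∈ range r, ∑ j ∈ range r, (if i ≠ j then ((univ.filter (B1 i j)).card : ℝ) else 0) +
      (univ.filter B2).card) * q := mul_le_mul_of_nonneg_right hunion hq0.le
    _ = ∑ i ∈ range r, ∑ j ∈ range r, (if i ≠ j then ((univ.filter (B1 i j)).card : ℝ) else 0) * q + (univ.filter B2).card * q := by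
        rw [add_mul, sum_mul]
        simp only [sum_mul]
    _ ≤ ∑ i ∈ range r, ∑ j ∈ range r, q ^ m + (2 * g + r) * q ^ m := by
        apply add_le_add _ hc2
        refine sum_le_sum fun i hi => sum_le_sum fun j hj => ?_
        by_cases hij : i ≠ j
        · rw [if_pos hij]
          exact hc1 i (mem_range.1 hi) j (mem_range.1 hj) hij
        · rw [if_neg hij, zero_mul]
          positivity
    _ = (r ^ 2 + (2 * g + r)) * q ^ m := by
        rw [sum_const, sum_const, card_range, nsmul_eq_mul, nsmul_eq_mul]
        ring

end

end Pool.Agent.V5helper57.Hyp
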