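import Pool.Agent.N647.NG.Loc

/-!
# The Euler factor of a hyperelliptic curve at the central point
-/

set_option autoImplicit false

namespace Pool.Agent.V5helper57.Hyp

open Finset Polynomial
open Pool.Agent.N647.NG (ch ch_abs sum_ch sum_ch_affine card_sqrt sum_shift weil_odd)

/-- The number of the affine points of `y² = f(x)` over the extension of degree `m` of the finite field `F`. -/
noncomputable def affN (F : Type) [Field F] (f : F[X]) (m : ℕ) : ℕ :=
  Nat.card {P : AlgebraicClosure F × AlgebraicClosure F //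
    P.1 ^ Nat.card F ^ m = P.1 ∧ P.2 ^ Nat.card F ^ m = P.2 ∧ P.2 ^ 2 = aeval P.1 f}

section
variable {F : Type} [Field F] [Fintype F]

theorem exists_ext (m : ℕ) (hm : 1 ≤ m) : ∃ (E : Type) (_ : Field E) (_ : Fintype E) (_ : DecidableEq E) (_ : Algebra F E),
    Fintype.card E = Fintype.card F ^ m := by
  classical
  obtain ⟨p, hp⟩ := CharP.exists F
  have : Fact (Nat.Prime p) := ⟨CharP.char_is_prime F p⟩
  have : NeZero m := ⟨by omega⟩
  let E := FiniteField.Extension F p m
  let _ : Fintype E := Fintype.ofFinite E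
  have hfr : Module.finrank F E = m := FiniteField.finrank_extension F p m
  refine ⟨E, inferInstance, inferInstance, inferInstance, inferInstance, ?_⟩
  rw [Module.card_eq_pow_finrank (K := F) (V := E), hfr]

variable {E : Type} [Field E] [Fintype E] [DecidableEq E] [Algebra F E]

theorem ringChar_ext (h2 : ringChar F ≠ 2) : ringChar E ≠ 2 := by
  rwa [← Algebra.ringChar_eq F E]

/-- The image of a finite extension in the algebraic closure. -/
theorem mem_img (j : E →ₐ[F] AlgebraicClosure F) (z : AlgebraicClosure F) :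
    (∃ e, j e = z) ↔ z ^ Fintype.card E = z := by
  classical
  constructor
  · rintro ⟨e, rfl⟩
    rw [← map_pow, FiniteField.pow_card]
  · intro hz
    obtain ⟨S, hS⟩ : ∃ S : Finset (AlgebraicClosure F), S = univ.image j := ⟨_, rfl⟩
    obtain ⟨P, hP⟩ : ∃ P : (AlgebraicClosure F)[X], P = X ^ Fintype.card E - X := ⟨_, rfl⟩
    have h1 : 1 < Fintype.card E := Fintype.one_lt_card
    have hPne : P ≠ 0 := by rw [hP]; exact FiniteField.X_pow_card_sub_X_ne_zero _ h1
    have hdeg : P.natDegree = Fintype.card E := by rw [hP]; exact FiniteField.X_pow_card_sub_X_natDegree_eq _ h1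
    have hmem : ∀ w : AlgebraicClosure F, w ∈ P.roots.toFinset ↔ w ^ Fintype.card E = w := by
      intro w
      rw [Multiset.mem_toFinset, mem_roots hPne, hP, IsRoot, eval_sub, eval_pow, eval_X, sub_eq_zero]
    have hsub : S ⊆ P.roots.toFinset := by
      intro w hw
      rw [hS, Finset.mem_image] at hw
      obtain ⟨e, _, rfl⟩ := hw
      rw [hmem, ← map_pow, FiniteField.pow_card]
    have hcard : P.roots.toFinset.card ≤ S.card := by
      have h3 : S.card = Fintype.card E := by
        rw [hS, card_image_of_injective univ (f := (j : E → AlgebraicClosure F)) j.injective, card_univ]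
      rw [h3, ← hdeg]
      exact (Multiset.toFinset_card_le _).trans (card_roots' P)
    have heq := eq_of_subset_of_card_le hsub hcard
    have : z ∈ S := by
      rw [heq, hmem]
      exact hz
    rw [hS, Finset.mem_image] at this
    obtain ⟨e, _, he⟩ := this
    exact ⟨e, he⟩

/-- The number of points by the quadratic character. -/
theorem affN_eq (h2 : ringChar F ≠ 2) (f : F[X]) {m : ℕ} (hcard : Fintype.card E = Fintype.card F ^ m) :
    (affN F f m : ℝ) = Fintype.card F ^ m + ∑ x : E, ch (aeval x f) := by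
  classical
  obtain ⟨j⟩ : Nonempty (E →ₐ[F] AlgebraicClosure F) := ⟨IsAlgClosed.lift (M := AlgebraicClosure F) (R := F) (S := E)⟩
  have hq : Nat.card F ^ m = Fintype.card E := by rw [Nat.card_eq_fintype_card, hcard]
  have h1 : affN F f m = Nat.card {P : E × E // P.2 ^ 2 = aeval P.1 f} := by
    unfold affN
    rw [hq]
    symm
    refine Nat.card_congr (Equiv.ofBijective (fun P => ⟨(j P.1.1, j P.1.2), ?_, ?_, ?_⟩) ⟨?_, ?_⟩)
    · rw [← map_pow, FiniteField.pow_card]
    · rw [← map_pow, FiniteField.pow_card]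
    · show j P.1.2 ^ 2 = aeval (j P.1.1) f
      rw [← map_pow, P.2, aeval_algHom_apply]
    · intro P Q h
      have h3 := Subtype.ext_iff.1 h
      apply Subtype.ext
      exact Prod.ext (j.injective (congrArg Prod.fst h3)) (j.injective (congrArg Prod.snd h3))
    · rintro ⟨⟨z, w⟩, hz, hw, hf⟩
      obtain ⟨x, rfl⟩ := (mem_img j z).2 hz
      obtain ⟨y, rfl⟩ := (mem_img j w).2 hw
      refine ⟨⟨(x, y), ?_⟩, rfl⟩
      apply j.injective
      show j (y ^ 2) = j (aeval x f)
      rw [map_pow, ← aeval_algHom_apply]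
      exact hf
  have h3 : Nat.card {P : E × E // P.2 ^ 2 = aeval P.1 f} = ∑ x : E, Nat.card {y : E // y ^ 2 = aeval x f} := by
    rw [← Nat.card_sigma]
    refine Nat.card_congr ⟨fun P => ⟨P.1.1, P.1.2, P.2⟩, fun P => ⟨(P.1, P.2.1), P.2.2⟩, fun P => rfl, fun P => rfl⟩
  rw [h1, h3]
  push_cast
  have hE := ringChar_ext (F := F) (E := E) h2
  simp only [card_sqrt hE]
  rw [sum_add_distrib, sum_const, card_univ, nsmul_eq_mul, mul_one, hcard]
  push_cast
  rfl

theorem weil_ext (h2 : ringChar F ≠ 2) {g : ℕ} {f : F[X]} (hf : f.Monic) (hd : f.natDegree = 2 * g + 1) {m : ℕ}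
    (hcard : Fintype.card E = Fintype.card F ^ m) : |∑ x : E, ch (aeval x f)| ≤ 2 * g * √(Fintype.card F) ^ m := by
  have hE := ringChar_ext (F := F) (E := E) h2
  have h1 := weil_odd hE (g := g) (hf.map (algebraMap F E)) (by rw [natDegree_map]; exact hd)
  have h3 : √(Fintype.card E : ℝ) = √(Fintype.card F) ^ m := by
    rw [hcard]
    push_cast
    rw [Real.sqrt_eq_iff_mul_self_eq (by positivity) (by positivity), ← mul_pow,
      Real.mul_self_sqrt (by positivity)]
  rw [h3] at h1
  simp only [eval_map_algebraMap] at h1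
  exact h1

end

/-- The sum `∑ (q^m - #C(F_m)) / (m q^m)`, with the sign minus: the logarithm of the numerator of the zeta function at `1 / q`. -/
noncomputable def LF (F : Type) [Field F] (f : F[X]) : ℝ :=
  -∑' k : ℕ, ((Nat.card F : ℝ) ^ (k + 1) - affN F f (k + 1)) / ((k + 1) * (Nat.card F : ℝ) ^ (k + 1))

section
variable {F : Type} [Field F] [Fintype F] [DecidableEq F]

theorem three_le_card (h2 : ringChar F ≠ 2) : 3 ≤ Fintype.card F := by
  have h1 : 1 < Fintype.card F := Fintype.one_lt_card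
  rcases Nat.lt_or_ge 2 (Fintype.card F) with h | h
  · exact h
  · exfalso
    have h3 : Fintype.card F = 2 := by omega
    apply h2
    have : (((2 : ℕ) : ℕ) : F) = 0 := by
      rw [← h3]
      exact FiniteField.cast_card_eq_zero F
    have h4 := (ringChar.spec F 2).1 this
    exact (Nat.prime_two.eq_one_or_self_of_dvd _ h4).resolve_left (CharP.ringChar_ne_one)

/-- The terms of the series. -/
noncomputable def tk (F : Type) [Field F] (f : F[X]) (k : ℕ) : ℝ :=
  ((affN F f (k + 1) : ℝ) - (Nat.card F : ℝ) ^ (k + 1)) / ((k + 1) * (Nat.card F : ℝ) ^ (k + 1))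

theorem LF_eq (f : F[X]) : LF F f = ∑' k : ℕ, tk F f k := by
  unfold LF tk
  rw [← tsum_neg]
  refine tsum_congr fun k => ?_
  rw [← neg_div, neg_sub]

theorem tk_le (h2 : ringChar F ≠ 2) {g : ℕ} {f : F[X]} (hf : f.Monic) (hd : f.natDegree = 2 * g + 1) (k : ℕ) :
    |tk F f k| ≤ 2 * g * (1 / √(Fintype.card F)) ^ (k + 1) := by
  classical
  obtain ⟨E, _, _, _, _, hcard⟩ := exists_ext (F := F) (k + 1) (by omega)
  have hq0 : (0 : ℝ) < Fintype.card F := by exact_mod_cast Fintype.card_pos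
  have h1 := affN_eq (E := E) h2 f hcard
  have h3 := weil_ext (E := E) h2 hf hd hcard
  obtain ⟨s, hs⟩ : ∃ s, s = √(Fintype.card F : ℝ) := ⟨_, rfl⟩
  have hs0 : 0 < s := by rw [hs]; exact Real.sqrt_pos.2 hq0
  have hss : s * s = Fintype.card F := by rw [hs]; exact Real.mul_self_sqrt hq0.le
  unfold tk
  rw [Nat.card_eq_fintype_card, h1, add_sub_cancel_left, abs_div, ← hs, abs_of_pos (by positivity :
    (0 : ℝ) < (k + 1) * (Fintype.card F : ℝ) ^ (k + 1)), div_le_iff₀ (by positivity)]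
  rw [← hs] at h3
  refine h3.trans ?_
  have e : 2 * (g : ℝ) * (1 / s) ^ (k + 1) * ((k + 1) * (Fintype.card F : ℝ) ^ (k + 1)) = (k + 1) * (2 * g * s ^ (k + 1)) := by
    rw [← hss, mul_pow, div_pow, one_pow]
    field_simp
  rw [e]
  have h4 : 0 ≤ 2 * (g : ℝ) * s ^ (k + 1) := by positivity
  have h5 : (1 : ℝ) ≤ k + 1 := by
    have : (0 : ℝ) ≤ k := Nat.cast_nonneg k
    linarith
  nlinarith

theorem rho_lt (h2 : ringChar F ≠ 2) : 1 / √(Fintype.card F : ℝ) ≤ 3 / 5 := by
  have h3 : (3 : ℝ) ≤ Fintype.card F := by exact_mod_cast three_le_card h2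
  have h1 : (5 / 3 : ℝ) ≤ √(Fintype.card F) := by
    apply Real.le_sqrt_of_sq_le
    norm_num
    linarith
  rw [div_le_div_iff₀ (by linarith) (by norm_num)]
  linarith

theorem tk_summable (h2 : ringChar F ≠ 2) {g : ℕ} {f : F[X]} (hf : f.Monic) (hd : f.natDegree = 2 * g + 1) :
    Summable (tk F f) := by
  have hr := rho_lt h2
  have h0 : 0 ≤ 1 / √(Fintype.card F : ℝ) := by positivity
  refine Summable.of_norm_bounded (g := fun k => 2 * g * (1 / √(Fintype.card F)) ^ (k + 1)) ?_ fun k => ?_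
  · apply Summable.mul_left
    exact (summable_nat_add_iff 1).2 (summable_geometric_of_lt_one h0 (by linarith))
  · rw [Real.norm_eq_abs]
    exact tk_le h2 hf hd k

/-- The tails. -/
theorem tail_le (h2 : ringChar F ≠ 2) {g : ℕ} {f : F[X]} (hf : f.Monic) (hd : f.natDegree = 2 * g + 1) (i : ℕ) :
    |∑' k : ℕ, tk F f (k + i)| ≤ 5 * g * (1 / √(Fintype.card F)) ^ (i + 1) := by
  have hr := rho_lt h2
  obtain ⟨ρ, hρ⟩ : ∃ ρ : ℝ, ρ = 1 / √(Fintype.card F : ℝ) := ⟨_, rfl⟩
  have h0 : 0 ≤ ρ := by rw [hρ]; positivity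
  rw [← hρ] at hr ⊢
  have hs1 : HasSum (fun k : ℕ => 2 * g * ρ ^ (i + 1) * ρ ^ k) (2 * g * ρ ^ (i + 1) * (1 - ρ)⁻¹) :=
    (hasSum_geometric_of_lt_one h0 (by linarith)).mul_left _
  have h1 : ‖∑' k : ℕ, tk F f (k + i)‖ ≤ 2 * g * ρ ^ (i + 1) * (1 - ρ)⁻¹ := by
    refine tsum_of_norm_bounded hs1 fun k => ?_
    rw [Real.norm_eq_abs]
    refine (tk_le h2 hf hd (k + i)).trans (le_of_eq ?_)
    rw [← hρ]
    ring
  rw [Real.norm_eq_abs] at h1
  refine h1.trans ?_
  have h3 : (1 - ρ)⁻¹ ≤ 5 / 2 := by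
    rw [inv_le_comm₀ (by linarith) (by norm_num)]
    linarith
  calc 2 * g * ρ ^ (i + 1) * (1 - ρ)⁻¹ ≤ 2 * g * ρ ^ (i + 1) * (5 / 2) := by gcongr
    _ = 5 * g * ρ ^ (i + 1) := by ring

/-- **The bound of the local factor.** -/
theorem LF_le (h2 : ringChar F ≠ 2) {g : ℕ} {f : F[X]} (hf : f.Monic) (hd : f.natDegree = 2 * g + 1) :
    |LF F f| ≤ 5 * g / √(Fintype.card F) := by
  have h1 := tail_le h2 hf hd 0
  rw [LF_eq]
  simp only [add_zero] at h1
  refine h1.trans (le_of_eq ?_)
  rw [zero_add, pow_one, mul_one_div]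

/-- **The first two terms of the local factor.** -/
theorem LF_near (h2 : ringChar F ≠ 2) {g : ℕ} {f : F[X]} (hf : f.Monic) (hd : f.natDegree = 2 * g + 1)
    {E : Type} [Field E] [Fintype E] [DecidableEq E] [Algebra F E] (hcard : Fintype.card E = Fintype.card F ^ 2) :
    |LF F f - ((∑ x : F, ch (f.eval x)) / Fintype.card F + (∑ x : E, ch (aeval x f)) / (2 * (Fintype.card F : ℝ) ^ 2))| ≤
      5 * g / ((Fintype.card F : ℝ) * √(Fintype.card F)) := by
  classical
  have hq0 : (0 : ℝ) < Fintype.card F := by exact_mod_cast Fintype.card_pos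
  have hs := tk_summable h2 hf hd
  have h1 : LF F f = tk F f 0 + tk F f 1 + ∑' k : ℕ, tk F f (k + 2) := by
    rw [LF_eq, ← hs.sum_add_tsum_nat_add 2, Finset.sum_range_succ, Finset.sum_range_one]
  have h3 : tk F f 0 = (∑ x : F, ch (f.eval x)) / Fintype.card F := by
    have h4 := affN_eq (F := F) (E := F) h2 f (m := 1) (by rw [pow_one])
    unfold tk
    rw [zero_add, h4, Nat.card_eq_fintype_card, add_sub_cancel_left]
    simp only [coe_aeval_eq_eval]
    norm_num
  have h5 : tk F f 1 = (∑ x : E, ch (aeval x f)) / (2 * (Fintype.card F : ℝ) ^ 2) := by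
    have h4 := affN_eq (E := E) h2 f hcard
    unfold tk
    rw [show 1 + 1 = 2 from rfl, h4, Nat.card_eq_fintype_card, add_sub_cancel_left]
    norm_num
  have h6 := tail_le h2 hf hd 2
  rw [h1, h3, h5]
  have e : (∑ x : F, ch (f.eval x)) / (Fintype.card F : ℝ) + (∑ x : E, ch (aeval x f)) / (2 * (Fintype.card F : ℝ) ^ 2) +
      ∑' k : ℕ, tk F f (k + 2) - ((∑ x : F, ch (f.eval x)) / Fintype.card F +
        (∑ x : E, ch (aeval x f)) / (2 * (Fintype.card F : ℝ) ^ 2)) = ∑' k : ℕ, tk F f (k + 2) := by ring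
  rw [e]
  refine h6.trans (le_of_eq ?_)
  obtain ⟨s, hs'⟩ : ∃ s, s = √(Fintype.card F : ℝ) := ⟨_, rfl⟩
  have hs0 : 0 < s := by rw [hs']; exact Real.sqrt_pos.2 hq0
  have hss : s * s = Fintype.card F := by rw [hs']; exact Real.mul_self_sqrt hq0.le
  rw [← hs', ← hss, div_pow, one_pow, mul_one_div]
  congr 1
  ring

end

end Pool.Agent.V5helper57.Hyp
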