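import Pool.Agent.V5helper57.Hyp.Cnt
import Pool.Agent.Q282.BP.Ch

/-!
# The families of hyperelliptic curves with marked points
-/

set_option autoImplicit false

namespace Pool.Agent.V5helper57.Hyp

open Finset Polynomial
open Pool.Agent.N647.NG (ch ch_abs sum_ch sum_ch_affine card_sqrt sum_shift weil_odd)

/-- The sequence `t`, continued by zeros. -/
def ex {R : Type} [Zero R] {m : ℕ} (t : Fin m → R) (i : ℕ) : R := if h : i < m then t ⟨i, h⟩ else 0

/-- The polynomial `∏_{i < r} (x - t_i) · (x ^ (2g+1-r) + ∑ t_{r+j} x ^ j) + (∑_{j ≤ g} t_{2g+1+j} x ^ j) ^ 2`. -/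
noncomputable def fam {R : Type} [CommRing R] (g r : ℕ) (t : ℕ → R) : R[X] :=
  (∏ i ∈ range r, (X - C (t i))) * (X ^ (2 * g + 1 - r) + ∑ j ∈ range (2 * g + 1 - r), C (t (r + j)) * X ^ j) +
    (∑ j ∈ range (g + 1), C (t (2 * g + 1 + j)) * X ^ j) ^ 2

theorem fam_map {R S : Type} [CommRing R] [CommRing S] (φ : R →+* S) (g r : ℕ) (t : ℕ → R) :
    (fam g r t).map φ = fam g r (fun i => φ (t i)) := by
  unfold fam
  simp only [Polynomial.map_add, Polynomial.map_mul, Polynomial.map_pow, Polynomial.map_prod, Polynomial.map_sum,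
    Polynomial.map_sub, map_X, map_C]

theorem ex_map {R S : Type} [CommRing R] [CommRing S] (φ : R →+* S) {m : ℕ} (t : Fin m → R) (i : ℕ) :
    φ (ex t i) = ex (fun i => φ (t i)) i := by
  unfold ex
  split_ifs
  · rfl
  · exact map_zero φ

theorem degree_low {R : Type} [CommRing R] (n : ℕ) (c : ℕ → R) : degree (∑ j ∈ range n, C (c j) * X ^ j) < (n : WithBot ℕ) := by
  rw [Finset.sum_range]
  exact degree_sum_fin_lt fun j : Fin n => c j

theorem fam_monic {R : Type} [CommRing R] [Nontrivial R] {g r : ℕ} (hr : r ≤ 2 * g) (t : ℕ → R) :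
    (fam g r t).Monic ∧ (fam g r t).natDegree = 2 * g + 1 := by
  obtain ⟨n, hn⟩ : ∃ n, n = 2 * g + 1 - r := ⟨_, rfl⟩
  obtain ⟨A, hA⟩ : ∃ A : R[X], A = ∏ i ∈ range r, (X - C (t i)) := ⟨_, rfl⟩
  obtain ⟨U, hU⟩ : ∃ U : R[X], U = X ^ n + ∑ j ∈ range n, C (t (r + j)) * X ^ j := ⟨_, rfl⟩
  obtain ⟨H, hH⟩ : ∃ H : R[X], H = ∑ j ∈ range (g + 1), C (t (2 * g + 1 + j)) * X ^ j := ⟨_, rfl⟩
  have e : fam g r t = A * U + H ^ 2 := by
    unfold fam
    rw [hA, hU, hH, hn]
  have mA : A.Monic := by rw [hA]; exact monic_prod_X_sub_C _ _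
  have dA : A.natDegree = r := by rw [hA, natDegree_finset_prod_X_sub_C_eq_card, card_range]
  have mU : U.Monic := by rw [hU]; exact monic_X_pow_add (degree_low n _)
  have dU : U.natDegree = n := by
    apply natDegree_eq_of_degree_eq_some
    rw [hU, degree_add_eq_left_of_degree_lt, degree_X_pow]
    rw [degree_X_pow]
    exact degree_low n _
  have dH : H.natDegree ≤ g := by
    rw [natDegree_le_iff_degree_le]
    have := degree_low (g + 1) (fun j => t (2 * g + 1 + j))
    rw [← hH] at this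
    exact Order.le_of_lt_succ (by
      rw [Nat.cast_add, Nat.cast_one] at this
      exact_mod_cast this)
  have mAU : (A * U).Monic := mA.mul mU
  have dAU : (A * U).natDegree = 2 * g + 1 := by
    rw [mA.natDegree_mul mU, dA, dU, hn]
    omega
  have dH2 : (H ^ 2).natDegree ≤ 2 * g := (natDegree_pow_le).trans (by omega)
  have hlt : degree (H ^ 2) < degree (A * U) := by
    apply degree_lt_degree
    rw [dAU]
    omega
  refine ⟨?_, ?_⟩
  · rw [e]
    exact mAU.add_of_left hlt
  · rw [e, natDegree_add_eq_left_of_degree_lt hlt, dAU]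

section
variable {F E : Type} [Field F] [Field E] [Algebra F E]

/-- The three parts of the values. -/
noncomputable def AA (E : Type) [Field E] [Algebra F E] (r : ℕ) (t : ℕ → F) (x : E) : E := ∏ i ∈ range r, (x - algebraMap F E (t i))
noncomputable def UU (E : Type) [Field E] [Algebra F E] (n r : ℕ) (t : ℕ → F) (x : E) : E :=
  x ^ n + ∑ j ∈ range n, algebraMap F E (t (r + j)) * x ^ j
noncomputable def HH (E : Type) [Field E] [Algebra F E] (g : ℕ) (t : ℕ → F) (x : E) : E :=
  ∑ j ∈ range (g + 1), algebraMap F E (t (2 * g + 1 + j)) * x ^ j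

theorem aeval_fam (g r : ℕ) (t : ℕ → F) (x : E) :
    aeval x (fam g r t) = AA E r t x * UU E (2 * g + 1 - r) r t x + HH E g t x ^ 2 := by
  unfold fam AA UU HH
  simp only [map_add, map_mul, map_pow, map_prod, map_sub, aeval_X, aeval_C, map_sum]

theorem AA_congr (r : ℕ) {t t' : ℕ → F} (h : ∀ i < r, t i = t' i) (x : E) : AA E r t x = AA E r t' x := by
  unfold AA
  refine prod_congr rfl fun i hi => ?_
  rw [h i (mem_range.1 hi)]

theorem UU_congr (n r : ℕ) {t t' : ℕ → F} (h : ∀ i, r ≤ i → i < r + n → t i = t' i) (x : E) : UU E n r t x = UU E n r t' x := by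
  unfold UU
  congr 1
  refine sum_congr rfl fun i hi => ?_
  have := mem_range.1 hi
  rw [h (r + i) (by omega) (by omega)]

theorem HH_congr (g : ℕ) {t t' : ℕ → F} (h : ∀ i, 2 * g + 1 ≤ i → t i = t' i) (x : E) : HH E g t x = HH E g t' x := by
  unfold HH
  refine sum_congr rfl fun i hi => ?_
  rw [h _ (by omega)]

theorem AA_zero_iff (r : ℕ) (t : ℕ → F) (x : E) : AA E r t x = 0 ↔ ∃ i < r, x = algebraMap F E (t i) := by
  unfold AA
  rw [prod_eq_zero_iff]
  constructor
  · rintro ⟨i, hi, h⟩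
    exact ⟨i, mem_range.1 hi, sub_eq_zero.1 h⟩
  · rintro ⟨i, hi, h⟩
    exact ⟨i, mem_range.2 hi, sub_eq_zero.2 h⟩

/-- The direction of a shift: `v0` at the index `k` and `v1` at the index `k + 1`. -/
def dir {R : Type} [Zero R] (m k : ℕ) (v0 v1 : R) (i : Fin m) : R := if (i : ℕ) = k then v0 else if (i : ℕ) = k + 1 then v1 else 0

theorem ex_add {R : Type} [CommRing R] {m : ℕ} (t : Fin m → R) (s : R) (c : Fin m → R) (i : ℕ) :
    ex (fun i => t i + s * c i) i = ex t i + s * ex c i := by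
  unfold ex
  split_ifs
  · rfl
  · rw [mul_zero, add_zero]

theorem ex_dir {R : Type} [Zero R] {m k : ℕ} (hk : k + 1 < m) (v0 v1 : R) (i : ℕ) :
    ex (dir m k v0 v1) i = if i = k then v0 else if i = k + 1 then v1 else 0 := by
  unfold ex dir
  split_ifs <;> first | rfl | omega

/-- Shift of `u`. -/
theorem UU_shift {g r m : ℕ} (hm : 2 * g + 1 < m) (hr : r ≤ 2 * g) (v0 v1 : F) (hv : r = 2 * g → v1 = 0) (t : Fin m → F) (s : F) (x : E) :
    UU E (2 * g + 1 - r) r (ex (fun i => t i + s * dir m r v0 v1 i)) x =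
      UU E (2 * g + 1 - r) r (ex t) x + algebraMap F E s * (algebraMap F E v0 + algebraMap F E v1 * x) := by
  unfold UU
  simp only [ex_add, ex_dir (show r + 1 < m by omega), map_add, map_mul, add_mul, sum_add_distrib]
  rw [add_assoc]
  congr 2
  simp only [mul_assoc]
  rw [← mul_sum]
  congr 1
  have e : ∀ j ∈ range (2 * g + 1 - r), algebraMap F E (if r + j = r then v0 else if r + j = r + 1 then v1 else 0) * x ^ j =
      (if j = 0 then algebraMap F E v0 else 0) + (if j = 1 then algebraMap F E v1 * x else 0) := by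
    intro j _
    rcases Nat.lt_trichotomy j 1 with h | h | h
    · have : j = 0 := by omega
      subst this
      simp
    · subst h
      simp
    · rw [if_neg (by omega), if_neg (by omega), if_neg (by omega), if_neg (by omega)]
      simp
  rw [sum_congr rfl e, sum_add_distrib, sum_ite_eq', sum_ite_eq', if_pos (mem_range.2 (by omega))]
  rcases Nat.lt_or_ge r (2 * g) with h | h
  · rw [if_pos (mem_range.2 (by omega))]
  · rw [hv (by omega)]
    simp

theorem AA_shift {g r m : ℕ} (hm : 2 * g + 1 < m) (hr : r ≤ 2 * g) {k : ℕ} (hk : r ≤ k) (hk2 : k + 1 < m) (v0 v1 : F) (t : Fin m → F) (s : F) (x : E) :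
    AA E r (ex (fun i => t i + s * dir m k v0 v1 i)) x = AA E r (ex t) x := by
  refine AA_congr r (fun i hi => ?_) x
  rw [ex_add, ex_dir hk2, if_neg (by omega), if_neg (by omega), mul_zero, add_zero]

theorem UU_same {g r m : ℕ} (hr : r ≤ 2 * g) {k : ℕ} (hk : 2 * g + 1 ≤ k) (hk2 : k + 1 < m) (v0 v1 : F) (t : Fin m → F) (s : F) (x : E) :
    UU E (2 * g + 1 - r) r (ex (fun i => t i + s * dir m k v0 v1 i)) x = UU E (2 * g + 1 - r) r (ex t) x := by
  refine UU_congr _ r (fun i hi hi2 => ?_) x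
  rw [ex_add, ex_dir hk2, if_neg (by omega), if_neg (by omega), mul_zero, add_zero]

theorem HH_same {g r m : ℕ} (hr : r ≤ 2 * g) (hm : 2 * g + 1 < m) (v0 v1 : F) (hv : r = 2 * g → v1 = 0) (t : Fin m → F) (s : F) (x : E) :
    HH E g (ex (fun i => t i + s * dir m r v0 v1 i)) x = HH E g (ex t) x := by
  refine HH_congr _ (fun i hi => ?_) x
  rw [ex_add, ex_dir (show r + 1 < m by omega), if_neg (by omega)]
  split_ifs with h
  · rw [hv (by omega), mul_zero, add_zero]
  · rw [mul_zero, add_zero]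

/-- Shift of `h`. -/
theorem HH_shift {g m : ℕ} (hg : 1 ≤ g) (hm : m = 3 * g + 2) (v0 v1 : F) (t : Fin m → F) (s : F) (x : E) :
    HH E g (ex (fun i => t i + s * dir m (2 * g + 1) v0 v1 i)) x =
      HH E g (ex t) x + algebraMap F E s * (algebraMap F E v0 + algebraMap F E v1 * x) := by
  unfold HH
  simp only [ex_add, ex_dir (show 2 * g + 1 + 1 < m by omega), map_add, map_mul, add_mul, sum_add_distrib]
  congr 1
  simp only [mul_assoc]
  rw [← mul_sum]
  congr 1
  have e : ∀ j ∈ range (g + 1), algebraMap F E (if 2 * g + 1 + j = 2 * g + 1 then v0 else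
      if 2 * g + 1 + j = 2 * g + 1 + 1 then v1 else 0) * x ^ j =
      (if j = 0 then algebraMap F E v0 else 0) + (if j = 1 then algebraMap F E v1 * x else 0) := by
    intro j _
    rcases Nat.lt_trichotomy j 1 with h | h | h
    · have : j = 0 := by omega
      subst this
      simp
    · subst h
      simp
    · rw [if_neg (by omega), if_neg (by omega), if_neg (by omega), if_neg (by omega)]
      simp
  rw [sum_congr rfl e, sum_add_distrib, sum_ite_eq', sum_ite_eq', if_pos (mem_range.2 (by omega)), if_pos (mem_range.2 (by omega))]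

end

end Pool.Agent.V5helper57.Hyp
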