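import Pool.Agent.V5helper57.Hyp.Loc
import Pool.Agent.V5helper57.NGen.Mod

/-!
# The local data of the Jacobians of hyperelliptic curves over a number field
-/

set_option autoImplicit false

namespace Pool.Agent.V5helper57.Hyp

open Finset Polynomial NumberField IsDedekindDomain
open Pool.Agent.H921R2.TatePole (below deg nm nm_eq)
open Pool.Agent.V5helper57.NGen (Loc)

section
variable {K : Type} [Field K] [NumberField K]

theorem res_surj (v : HeightOneSpectrum (𝓞 K)) : Function.Surjective (algebraMap (𝓞 K) v.asIdeal.ResidueField) := by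
  have hmax : v.asIdeal.IsMaximal := v.isPrime.isMaximal v.ne_bot
  intro y
  obtain ⟨z, hz⟩ := (Ideal.bijective_algebraMap_quotient_residueField v.asIdeal).2 y
  obtain ⟨x, hx⟩ := Ideal.Quotient.mk_surjective z
  refine ⟨x, ?_⟩
  rw [← hz, ← hx]
  rfl

theorem res_ker (v : HeightOneSpectrum (𝓞 K)) (x : 𝓞 K) : algebraMap (𝓞 K) v.asIdeal.ResidueField x = 0 ↔ x ∈ v.asIdeal :=
  Ideal.algebraMap_residueField_eq_zero

theorem res_card (v : HeightOneSpectrum (𝓞 K)) : Nat.card v.asIdeal.ResidueField = Ideal.absNorm v.asIdeal := by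
  have hmax : v.asIdeal.IsMaximal := v.isPrime.isMaximal v.ne_bot
  rw [← Nat.card_congr (Equiv.ofBijective _ (Ideal.bijective_algebraMap_quotient_residueField v.asIdeal))]
  rfl

theorem res_char (v : HeightOneSpectrum (𝓞 K)) : CharP v.asIdeal.ResidueField (below v : ℕ) := by
  have hp := (nm_eq v).2.2
  have h0 : (((below v : ℕ) : ℕ) : v.asIdeal.ResidueField) = 0 := by
    rw [← map_natCast (algebraMap (𝓞 K) v.asIdeal.ResidueField)]
    exact (res_ker v _).2 hp
  exact ringChar.of_eq (CharP.ringChar_of_prime_eq_zero (below v).prop h0)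

open Classical in
/-- The logarithm of the Euler factor at the prime `v`. -/
noncomputable def lv (f : (𝓞 K)[X]) (v : HeightOneSpectrum (𝓞 K)) : ℝ :=
  if (2 : 𝓞 K) ∉ v.asIdeal ∧ Squarefree (f.map (algebraMap (𝓞 K) v.asIdeal.ResidueField)) then
    LF v.asIdeal.ResidueField (f.map (algebraMap (𝓞 K) v.asIdeal.ResidueField)) else 0

/-- The local data of the family. -/
noncomputable def VV (K : Type) [Field K] [NumberField K] (g r m : ℕ) (v : HeightOneSpectrum (𝓞 K)) (t : Fin m → 𝓞 K) : ℝ :=
  lv (fam g r (ex t)) v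

theorem two_iff (v : HeightOneSpectrum (𝓞 K)) : (2 : 𝓞 K) ∉ v.asIdeal ↔ ringChar v.asIdeal.ResidueField ≠ 2 := by
  rw [← res_ker, map_ofNat, not_iff_not]
  constructor
  · intro h
    have h1 : (((2 : ℕ) : ℕ) : v.asIdeal.ResidueField) = 0 := by exact_mod_cast h
    exact (Nat.prime_two.eq_one_or_self_of_dvd _ ((ringChar.spec _ 2).1 h1)).resolve_left CharP.ringChar_ne_one
  · intro h
    have h1 : (((2 : ℕ) : ℕ) : v.asIdeal.ResidueField) = 0 := (ringChar.spec _ 2).2 (by rw [h])
    exact_mod_cast h1

/-- **The local data are admissible.** -/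
theorem loc_VV (K : Type) [Field K] [NumberField K] {g r m : ℕ} (hg : 1 ≤ g) (hr : r ≤ 2 * g) (hm : m = 3 * g + 2) :
    Loc K m (VV K g r m) (5 * g) (r + 1 / 2) (1000 * (g + 1) ^ 4) (2 * g + 2) where
  A0 := by positivity
  C0 := by positivity
  bd v t := by
    classical
    have hfin : Finite v.asIdeal.ResidueField := Nat.finite_of_card_ne_zero (by rw [res_card]; exact (Q282.NF.nm_pos v).ne')
    let _ : Fintype v.asIdeal.ResidueField := Fintype.ofFinite _
    have hcard : Fintype.card v.asIdeal.ResidueField = Ideal.absNorm v.asIdeal := by rw [← Nat.card_eq_fintype_card, res_card]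
    unfold VV lv
    split_ifs with h
    · rw [← hcard, fam_map]
      obtain ⟨h1, h3⟩ := fam_monic (R := v.asIdeal.ResidueField) hr (fun i => algebraMap (𝓞 K) v.asIdeal.ResidueField (ex t i))
      exact LF_le ((two_iff v).1 h.1) h1 h3
    · rw [abs_zero]
      positivity
  loc v := by
    classical
    have hfin : Finite v.asIdeal.ResidueField := Nat.finite_of_card_ne_zero (by rw [res_card]; exact (Q282.NF.nm_pos v).ne')
    let _ : Fintype v.asIdeal.ResidueField := Fintype.ofFinite _
    have hcard : Fintype.card v.asIdeal.ResidueField = Ideal.absNorm v.asIdeal := by rw [← Nat.card_eq_fintype_card, res_card]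
    refine ⟨v.asIdeal.ResidueField, inferInstance, inferInstance, algebraMap (𝓞 K) v.asIdeal.ResidueField,
      fun x => if ringChar v.asIdeal.ResidueField ≠ 2 then GG v.asIdeal.ResidueField g r m x else 0,
      res_surj v, res_ker v, res_char v, hcard, fun t => ?_, fun hp => ?_⟩
    · unfold VV lv GG
      have e : (fam g r (ex t)).map (algebraMap (𝓞 K) v.asIdeal.ResidueField) =
          fam g r (ex fun i => algebraMap (𝓞 K) v.asIdeal.ResidueField (t i)) := by
        rw [fam_map]
        congr 1
        funext i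
        exact ex_map _ t i
      beta_reduce
      by_cases h2 : ringChar v.asIdeal.ResidueField ≠ 2
      · by_cases hs : Squarefree (fam g r (ex fun i => algebraMap (𝓞 K) v.asIdeal.ResidueField (t i)))
        · rw [if_pos ⟨(two_iff v).2 h2, by rw [e]; exact hs⟩, if_pos h2, if_pos hs, e]
        · rw [if_neg (fun h => hs (by rw [← e]; exact h.2)), if_pos h2, if_neg hs]
      · rw [if_neg (fun h => h2 ((two_iff v).1 h.1)), if_neg h2]
    · have hch : ringChar v.asIdeal.ResidueField = (below v : ℕ) := by
        have := res_char v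
        exact ringChar.eq_iff.2 this
      have h2 : ringChar v.asIdeal.ResidueField ≠ 2 := by rw [hch]; omega
      simp only [if_pos h2]
      rw [← hcard]
      exact GG_moments h2 hg hr hm (by rw [hch]; omega)

end

end Pool.Agent.V5helper57.Hyp
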