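import Pool.Agent.V5helper57.Hyp.Bad

/-!
# The two moments of the local factor
-/

set_option autoImplicit false

namespace Pool.Agent.V5helper57.Hyp

open Finset Polynomial
open Pool.Agent.N647.NG (ch ch_abs sum_ch sum_ch_affine card_sqrt sum_shift weil_odd)

section
variable {F : Type} [Field F] [Fintype F] [DecidableEq F] {g r m : ℕ}

open Classical in
/-- The local value of the member `t`. -/
noncomputable def GG (F : Type) [Field F] (g r m : ℕ) (t : Fin m → F) : ℝ :=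
  if Squarefree (fam g r (ex t)) then LF F (fam g r (ex t)) else 0

theorem GG_le (h2 : ringChar F ≠ 2) (hr : r ≤ 2 * g) (t : Fin m → F) : |GG F g r m t| ≤ 5 * g / √(Fintype.card F) := by
  classical
  obtain ⟨h1, h3⟩ := fam_monic (R := F) hr (ex t)
  unfold GG
  split_ifs
  · exact LF_le h2 h1 h3
  · rw [abs_zero]
    positivity

/-- **The two moments.** -/
theorem GG_moments (h2 : ringChar F ≠ 2) (hg : 1 ≤ g) (hr : r ≤ 2 * g) (hm : m = 3 * g + 2) (hch : 2 * g + 1 < ringChar F) :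
    |(∑ t : Fin m → F, GG F g r m t) / Fintype.card (Fin m → F) - (r + 1 / 2) / Fintype.card F| ≤
      (1000 * (g + 1) ^ 4) / ((Fintype.card F : ℝ) * √(Fintype.card F)) ∧
    |(∑ t : Fin m → F, GG F g r m t ^ 2) / Fintype.card (Fin m → F) - 1 / Fintype.card F| ≤
      (1000 * (g + 1) ^ 4) / ((Fintype.card F : ℝ) * √(Fintype.card F)) := by
  classical
  obtain ⟨E, _, _, _, _, hcard⟩ := exists_ext (F := F) 2 (by omega)
  obtain ⟨q, hq⟩ : ∃ q : ℝ, q = Fintype.card F := ⟨_, rfl⟩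
  have hq3 : 3 ≤ q := by rw [hq]; exact_mod_cast three_le_card h2
  have hq0 : 0 < q := by linarith
  obtain ⟨s, hs⟩ : ∃ s, s = √q := ⟨_, rfl⟩
  have hs0 : 0 < s := by rw [hs]; exact Real.sqrt_pos.2 hq0
  have hss : s * s = q := by rw [hs]; exact Real.mul_self_sqrt hq0.le
  have hs1 : 1 ≤ s := by nlinarith
  have hsq : s ≤ q := by nlinarith
  obtain ⟨D, hD⟩ : ∃ D : ℝ, D = q ^ m := ⟨_, rfl⟩
  have hD0 : 0 < D := by rw [hD]; positivity
  have hcd : (Fintype.card (Fin m → F) : ℝ) = D := by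
    rw [Fintype.card_fun, Fintype.card_fin, hD, hq]
    push_cast
    rfl
  obtain ⟨G, hG⟩ : ∃ G : ℝ, G = g := ⟨_, rfl⟩
  have hG1 : 1 ≤ G := by rw [hG]; exact_mod_cast hg
  obtain ⟨R, hR⟩ : ∃ R : ℝ, R = r := ⟨_, rfl⟩
  have hR0 : 0 ≤ R := by rw [hR]; positivity
  have hR2 : R ≤ 2 * G := by rw [hR, hG]; exact_mod_cast hr
  -- the ingredients
  have m1 := moment_one (F := F) h2 hg hr hm
  have m2 := moment_two (F := F) h2 hg hr hm
  have m3 := moment_ext (F := F) (E := E) h2 hcard hg hr hm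
  rw [← hq, ← hD, ← hR] at m1 m2
  rw [← hq, ← hD] at m3
  obtain ⟨B, hB⟩ : ∃ B : Finset (Fin m → F), B = univ.filter fun t => ¬ Squarefree (fam g r (ex t)) := ⟨_, rfl⟩
  have mb := bad_cnt (F := F) hg hr hm hch (fun t => ¬ Squarefree (fam g r (ex t))) (fun t ht => ht)
  rw [← hB, ← hq, ← hD, ← hG, ← hR] at mb
  obtain ⟨S2, hS2⟩ : ∃ S2 : (Fin m → F) → ℝ, S2 = fun t => ∑ x : E, ch (aeval x (fam g r (ex t))) := ⟨_, rfl⟩
  have m3' : |∑ t : Fin m → F, S2 t - q * D| ≤ 3 * D := by rw [hS2]; exact m3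
  have hnear : ∀ t : Fin m → F, |LF F (fam g r (ex t)) - (S1 g r t / q + S2 t / (2 * q ^ 2))| ≤ 5 * G / (q * s) := by
    intro t
    obtain ⟨h1, h3⟩ := fam_monic (R := F) hr (ex t)
    have h4 := LF_near h2 h1 h3 hcard
    simp only [vl_eq] at h4
    rw [← hq, ← hs, ← hG] at h4
    rw [hS2]
    exact h4
  have hle : ∀ t : Fin m → F, |LF F (fam g r (ex t))| ≤ 5 * G / s := by
    intro t
    obtain ⟨h1, h3⟩ := fam_monic (R := F) hr (ex t)
    have h4 := LF_le h2 h1 h3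
    rw [← hq, ← hs, ← hG] at h4
    exact h4
  have hS1 : ∀ t : Fin m → F, |S1 g r t| ≤ 2 * G * s := by
    intro t
    obtain ⟨h1, h3⟩ := fam_monic (R := F) hr (ex t)
    have h4 := weil_ext (E := F) h2 h1 h3 (m := 1) (by rw [pow_one])
    rw [pow_one, ← hq, ← hs, ← hG] at h4
    simp only [coe_aeval_eq_eval, vl_eq] at h4
    exact h4
  have hS2' : ∀ t : Fin m → F, |S2 t| ≤ 2 * G * q := by
    intro t
    obtain ⟨h1, h3⟩ := fam_monic (R := F) hr (ex t)
    have h4 := weil_ext (E := E) h2 h1 h3 hcard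
    rw [← hq, ← hs, ← hG, sq, hss] at h4
    rw [hS2]
    exact h4
  -- good and bad members
  have hGG : ∀ (Ψ : ℝ → ℝ), Ψ 0 = 0 → ∑ t : Fin m → F, Ψ (GG F g r m t) = ∑ t : Fin m → F, Ψ (LF F (fam g r (ex t))) -
      ∑ t ∈ B, Ψ (LF F (fam g r (ex t))) := by
    intro Ψ hΨ
    rw [hB, sum_filter, ← sum_sub_distrib]
    refine sum_congr rfl fun t _ => ?_
    unfold GG
    by_cases h : Squarefree (fam g r (ex t))
    · rw [if_pos h, if_neg (not_not.2 h), sub_zero]
    · rw [if_neg h, if_pos h, sub_self, hΨ]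
  have hcb : (R ^ 2 + (2 * G + R)) ≤ 8 * G ^ 2 := by nlinarith
  have hBc : (B.card : ℝ) ≤ 8 * G ^ 2 * D / q := by
    rw [le_div_iff₀ hq0]
    exact mb.trans (mul_le_mul_of_nonneg_right hcb hD0.le)
  have hqs : 1 / (q * q) ≤ 1 / (q * s) := by
    apply one_div_le_one_div_of_le (by positivity)
    nlinarith
  have hG4 : G ≤ (G + 1) ^ 4 ∧ G ^ 2 ≤ (G + 1) ^ 4 ∧ G ^ 3 ≤ (G + 1) ^ 4 ∧ G ^ 4 ≤ (G + 1) ^ 4 ∧ 1 ≤ (G + 1) ^ 4 := by
    refine ⟨?_, ?_, ?_, ?_, ?_⟩ <;> nlinarith [sq_nonneg G, pow_pos (by linarith : 0 < G) 3, pow_pos (by linarith : 0 < G) 4]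
  obtain ⟨g1, g2, g3, g4, g5⟩ := hG4
  rw [hcd, ← hq, ← hs, ← hG, ← hR]
  have hqs0 : 0 < 1 / (q * s) := by positivity
  constructor
  · -- the mean
    have e1 := hGG (fun x => x) rfl
    have a1 : |∑ t ∈ B, LF F (fam g r (ex t))| ≤ 40 * G ^ 3 * (D * (1 / (q * s))) := by
      refine (abs_sum_le_sum_abs _ _).trans ((sum_le_sum fun t _ => hle t).trans ?_)
      rw [sum_const, nsmul_eq_mul]
      calc (B.card : ℝ) * (5 * G / s) ≤ 8 * G ^ 2 * D / q * (5 * G / s) := by gcongr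
        _ = 40 * G ^ 3 * (D * (1 / (q * s))) := by field_simp; ring
    have a2 : |∑ t : Fin m → F, LF F (fam g r (ex t)) - ((∑ t : Fin m → F, S1 g r t) / q + (∑ t : Fin m → F, S2 t) / (2 * q ^ 2))| ≤
        5 * G * (D * (1 / (q * s))) := by
      have e2 : ∑ t : Fin m → F, LF F (fam g r (ex t)) - ((∑ t : Fin m → F, S1 g r t) / q + (∑ t : Fin m → F, S2 t) / (2 * q ^ 2)) =
          ∑ t : Fin m → F, (LF F (fam g r (ex t)) - (S1 g r t / q + S2 t / (2 * q ^ 2))) := by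
        rw [sum_sub_distrib, sum_add_distrib, sum_div, sum_div]
      rw [e2]
      refine (abs_sum_le_sum_abs _ _).trans ((sum_le_sum fun t _ => hnear t).trans (le_of_eq ?_))
      rw [sum_const, card_univ, nsmul_eq_mul, hcd]
      ring
    have a3 : |(∑ t : Fin m → F, S1 g r t) / q - R * D / q| ≤ R * (R ^ 2 + R) * (D * (1 / (q * s))) := by
      have e2 : (∑ t : Fin m → F, S1 g r t) / q - R * D / q = (∑ t : Fin m → F, S1 g r t - R * D) / q := by ring
      rw [e2, abs_div, abs_of_pos hq0, div_le_iff₀ hq0]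
      have h4 : |∑ t : Fin m → F, S1 g r t - R * D| ≤ R * (R ^ 2 + R) * D / q := by
        rw [le_div_iff₀ hq0]
        exact m1
      refine h4.trans ?_
      calc R * (R ^ 2 + R) * D / q = R * (R ^ 2 + R) * D * (1 / (q * q)) * q := by field_simp
        _ ≤ R * (R ^ 2 + R) * D * (1 / (q * s)) * q := by gcongr
        _ = R * (R ^ 2 + R) * (D * (1 / (q * s))) * q := by ring
    have a4 : |(∑ t : Fin m → F, S2 t) / (2 * q ^ 2) - (1 / 2) * D / q| ≤ 2 * (D * (1 / (q * s))) := by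
      have e2 : (∑ t : Fin m → F, S2 t) / (2 * q ^ 2) - (1 / 2) * D / q = (∑ t : Fin m → F, S2 t - q * D) / (2 * q ^ 2) := by
        field_simp
      rw [e2, abs_div, abs_of_pos (by positivity : 0 < 2 * q ^ 2)]
      calc |∑ t : Fin m → F, S2 t - q * D| / (2 * q ^ 2) ≤ 3 * D / (2 * q ^ 2) := by gcongr
        _ = 3 / 2 * (D * (1 / (q * q))) := by field_simp
        _ ≤ 3 / 2 * (D * (1 / (q * s))) := by gcongr
        _ ≤ 2 * (D * (1 / (q * s))) := by
            have : 0 ≤ D * (1 / (q * s)) := by positivity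
            linarith
    have e3 : (∑ t : Fin m → F, GG F g r m t) / D - (R + 1 / 2) / q = (∑ t : Fin m → F, GG F g r m t - (R * D / q + (1 / 2) * D / q)) / D := by
      field_simp
    rw [e3, abs_div, abs_of_pos hD0, div_le_iff₀ hD0]
    rw [e1]
    have hx : 0 ≤ D * (1 / (q * s)) := by positivity
    have hRR : R * (R ^ 2 + R) ≤ 12 * G ^ 3 := by
      have k1 : R ^ 2 ≤ 4 * G ^ 2 := by nlinarith
      have k2 : R ^ 2 + R ≤ 6 * G ^ 2 := by nlinarith
      calc R * (R ^ 2 + R) ≤ 2 * G * (6 * G ^ 2) := by gcongr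
        _ = 12 * G ^ 3 := by ring
    have hfin : |∑ t : Fin m → F, LF F (fam g r (ex t)) - ∑ t ∈ B, LF F (fam g r (ex t)) - (R * D / q + (1 / 2) * D / q)| ≤
        (40 * G ^ 3 + 5 * G + R * (R ^ 2 + R) + 2) * (D * (1 / (q * s))) := by
      rw [abs_le] at a1 a2 a3 a4 ⊢
      constructor <;> linarith [a1.1, a1.2, a2.1, a2.2, a3.1, a3.2, a4.1, a4.2]
    refine hfin.trans ?_
    have e4 : 1000 * (G + 1) ^ 4 / (q * s) * D = 1000 * (G + 1) ^ 4 * (D * (1 / (q * s))) := by ring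
    rw [e4]
    apply mul_le_mul_of_nonneg_right _ hx
    linarith
  · -- the second moment
    have e1 := hGG (fun x => x ^ 2) (by norm_num)
    have a1 : |∑ t ∈ B, LF F (fam g r (ex t)) ^ 2| ≤ 200 * G ^ 4 * (D * (1 / (q * s))) := by
      refine (abs_sum_le_sum_abs _ _).trans ?_
      have h5 : ∀ t ∈ B, |LF F (fam g r (ex t)) ^ 2| ≤ (5 * G / s) ^ 2 := fun t _ => by
        rw [abs_pow]
        exact pow_le_pow_left₀ (abs_nonneg _) (hle t) 2
      refine (sum_le_sum h5).trans ?_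
      rw [sum_const, nsmul_eq_mul]
      calc (B.card : ℝ) * (5 * G / s) ^ 2 ≤ 8 * G ^ 2 * D / q * (5 * G / s) ^ 2 := by gcongr
        _ = 200 * G ^ 4 * (D * (1 / (q * (s * s)))) := by field_simp; ring
        _ ≤ 200 * G ^ 4 * (D * (1 / (q * s))) := by
            gcongr
            nlinarith
    have hterm : ∀ t : Fin m → F, |LF F (fam g r (ex t)) ^ 2 - S1 g r t ^ 2 / q ^ 2| ≤ 42 * G ^ 2 * (1 / (q * s)) := by
      intro t
      obtain ⟨L, hL⟩ : ∃ L, L = LF F (fam g r (ex t)) := ⟨_, rfl⟩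
      obtain ⟨a, ha⟩ : ∃ a, a = S1 g r t / q := ⟨_, rfl⟩
      have k1 : |L - a| ≤ 6 * G / q := by
        have k2 := hnear t
        rw [← hL, ← ha] at k2
        have k3 : |S2 t / (2 * q ^ 2)| ≤ G / q := by
          rw [abs_div, abs_of_pos (by positivity : 0 < 2 * q ^ 2), div_le_div_iff₀ (by positivity) hq0]
          calc |S2 t| * q ≤ 2 * G * q * q := by have := hS2' t; gcongr
            _ = G * (2 * q ^ 2) := by ring
        have k4 : 5 * G / (q * s) ≤ 5 * G / q := div_le_div_of_nonneg_left (by positivity) hq0 (by nlinarith)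
        have e2 : L - a = (L - (a + S2 t / (2 * q ^ 2))) + S2 t / (2 * q ^ 2) := by ring
        rw [e2]
        refine (abs_add_le _ _).trans ?_
        have e3 : 6 * G / q = 5 * G / q + G / q := by ring
        rw [e3]
        linarith
      have k5 : |L + a| ≤ 7 * G / s := by
        have k6 := hle t
        rw [← hL] at k6
        have k7 : |a| ≤ 2 * G / s := by
          rw [ha, abs_div, abs_of_pos hq0, div_le_div_iff₀ hq0 hs0]
          calc |S1 g r t| * s ≤ 2 * G * s * s := by have := hS1 t; gcongr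
            _ = 2 * G * q := by rw [mul_assoc, hss]
        refine (abs_add_le _ _).trans ?_
        have e3 : 7 * G / s = 5 * G / s + 2 * G / s := by ring
        rw [e3]
        linarith
      have e4 : LF F (fam g r (ex t)) ^ 2 - S1 g r t ^ 2 / q ^ 2 = (L - a) * (L + a) := by
        rw [← hL, ha]
        field_simp
        ring
      rw [e4, abs_mul]
      calc |L - a| * |L + a| ≤ 6 * G / q * (7 * G / s) := by gcongr
        _ = 42 * G ^ 2 * (1 / (q * s)) := by field_simp; ring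
    have a2 : |∑ t : Fin m → F, LF F (fam g r (ex t)) ^ 2 - (∑ t : Fin m → F, S1 g r t ^ 2) / q ^ 2| ≤ 42 * G ^ 2 * (D * (1 / (q * s))) := by
      have e2 : ∑ t : Fin m → F, LF F (fam g r (ex t)) ^ 2 - (∑ t : Fin m → F, S1 g r t ^ 2) / q ^ 2 =
          ∑ t : Fin m → F, (LF F (fam g r (ex t)) ^ 2 - S1 g r t ^ 2 / q ^ 2) := by
        rw [sum_sub_distrib, sum_div]
      rw [e2]
      refine (abs_sum_le_sum_abs _ _).trans ((sum_le_sum fun t _ => hterm t).trans (le_of_eq ?_))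
      rw [sum_const, card_univ, nsmul_eq_mul, hcd]
      ring
    have a3 : |(∑ t : Fin m → F, S1 g r t ^ 2) / q ^ 2 - D / q| ≤ (R ^ 2 + 5) * (D * (1 / (q * s))) := by
      have e2 : (∑ t : Fin m → F, S1 g r t ^ 2) / q ^ 2 - D / q = (∑ t : Fin m → F, S1 g r t ^ 2 - q * D) / q ^ 2 := by
        field_simp
      rw [e2, abs_div, abs_of_pos (by positivity : 0 < q ^ 2)]
      calc |∑ t : Fin m → F, S1 g r t ^ 2 - q * D| / q ^ 2 ≤ (R ^ 2 + 5) * D / q ^ 2 := by gcongr
        _ = (R ^ 2 + 5) * (D * (1 / (q * q))) := by field_simp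
        _ ≤ (R ^ 2 + 5) * (D * (1 / (q * s))) := by gcongr
    have e3 : (∑ t : Fin m → F, GG F g r m t ^ 2) / D - 1 / q = (∑ t : Fin m → F, GG F g r m t ^ 2 - D / q) / D := by
      field_simp
    rw [e3, abs_div, abs_of_pos hD0, div_le_iff₀ hD0]
    rw [e1]
    have hx : 0 ≤ D * (1 / (q * s)) := by positivity
    have hRR : R ^ 2 ≤ 4 * G ^ 2 := by nlinarith
    have hfin : |∑ t : Fin m → F, LF F (fam g r (ex t)) ^ 2 - ∑ t ∈ B, LF F (fam g r (ex t)) ^ 2 - D / q| ≤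
        (200 * G ^ 4 + 42 * G ^ 2 + (R ^ 2 + 5)) * (D * (1 / (q * s))) := by
      rw [abs_le] at a1 a2 a3 ⊢
      constructor <;> linarith [a1.1, a1.2, a2.1, a2.2, a3.1, a3.2]
    refine hfin.trans ?_
    have e4 : 1000 * (G + 1) ^ 4 / (q * s) * D = 1000 * (G + 1) ^ 4 * (D * (1 / (q * s))) := by ring
    rw [e4]
    apply mul_le_mul_of_nonneg_right _ hx
    linarith

end

end Pool.Agent.V5helper57.Hyp
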