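import Pool.Agent.V5helper57.Hyp.Fam

/-!
# The moments of the character sums over the families of hyperelliptic curves
-/

set_option autoImplicit false

namespace Pool.Agent.V5helper57.Hyp

open Finset Polynomial
open Pool.Agent.N647.NG (ch ch_abs sum_ch sum_ch_affine card_sqrt sum_shift weil_odd)

section
variable {κ : Type} [Field κ] [Fintype κ] [DecidableEq κ] {D : ℕ}

theorem ch_zero' : ch (0 : κ) = 0 := by
  unfold ch
  simp

theorem ch_sq_val (x : κ) : ch (x ^ 2) = if x = 0 then 0 else 1 := by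
  split_ifs with h
  · rw [h, zero_pow (by norm_num), ch_zero']
  · exact Q282.BP.ch_of_sq h

theorem ch_sq_eq (x : κ) : ch x ^ 2 = if x = 0 then 0 else 1 := Q282.BP.ch_sq' x

theorem sum_trans (Φ : (Fin D → κ) → ℝ) (w : Fin D → κ) : ∑ t : Fin D → κ, Φ (fun i => t i + 1 * w i) = ∑ t, Φ t := by
  simp only [one_mul]
  exact Fintype.sum_equiv (Equiv.addRight w) _ _ fun _ => rfl

theorem sum_avg (Φ : (Fin D → κ) → ℝ) (c : Fin D → κ) :
    ∑ t : Fin D → κ, ∑ s : κ, Φ (fun i => t i + s * c i) = Fintype.card κ * ∑ t, Φ t := by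
  rw [sum_comm]
  have h1 : ∀ s : κ, ∑ t : Fin D → κ, Φ (fun i => t i + s * c i) = ∑ t, Φ t := by
    intro s
    exact Fintype.sum_equiv (Equiv.addRight fun i => s * c i) _ _ fun _ => rfl
  simp only [h1]
  rw [sum_const, card_univ, nsmul_eq_mul]

/-- Counting by a shift. -/
theorem cnt_le (P : (Fin D → κ) → Prop) [DecidablePred P] (c : Fin D → κ) (N : ℝ)
    (h : ∀ t : Fin D → κ, ((univ.filter fun s : κ => P (fun i => t i + s * c i)).card : ℝ) ≤ N) :
    ((univ.filter P).card : ℝ) * Fintype.card κ ≤ N * Fintype.card κ ^ D := by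
  have h1 := sum_avg (fun t => if P t then (1 : ℝ) else 0) c
  have h3 : ∑ t : Fin D → κ, (if P t then (1 : ℝ) else 0) = (univ.filter P).card := by
    rw [sum_boole]
  have h4 : ∀ t : Fin D → κ, ∑ s : κ, (if P (fun i => t i + s * c i) then (1 : ℝ) else 0) ≤ N := by
    intro t
    rw [sum_boole]
    exact h t
  rw [h3] at h1
  calc ((univ.filter P).card : ℝ) * Fintype.card κ = ∑ t : Fin D → κ, ∑ s : κ, (if P (fun i => t i + s * c i) then (1 : ℝ) else 0) := by
        rw [h1, mul_comm]
    _ ≤ ∑ t : Fin D → κ, N := sum_le_sum fun t _ => h4 t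
    _ = N * Fintype.card κ ^ D := by
        rw [sum_const, card_univ, Fintype.card_fun, Fintype.card_fin, nsmul_eq_mul]
        push_cast
        ring

theorem lin1 (a : κ) {b : κ} (hb : b ≠ 0) (P : κ → Prop) [DecidablePred P] (h : ∀ s, P s → a + s * b = 0) :
    ((univ.filter P).card : ℝ) ≤ 1 := by
  have : (univ.filter P).card ≤ 1 := by
    rw [card_le_one]
    intro x hx y hy
    have h1 := h x (mem_filter.1 hx).2
    have h3 := h y (mem_filter.1 hy).2
    have h4 : (x - y) * b = 0 := by linear_combination h1 - h3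
    exact sub_eq_zero.1 ((mul_eq_zero.1 h4).resolve_right hb)
  exact_mod_cast this

theorem quad2 (α b : κ) (P : κ → Prop) [DecidablePred P] (h : ∀ s, P s → α + (b + s) ^ 2 = 0) :
    ((univ.filter P).card : ℝ) ≤ 2 := by
  have h1 : (univ.filter P).card ≤ (univ.filter fun L : κ => L ^ 2 = -α).card := by
    refine card_le_card_of_injOn (fun s => b + s) ?_ ?_
    · intro s hs
      rw [mem_coe, mem_filter] at hs ⊢
      exact ⟨mem_univ _, by linear_combination h s hs.2⟩
    · intro x _ y _ hxy
      exact add_left_cancel hxy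
  have h3 := h1.trans (Q282.BP.card_sq_le (-α))
  exact_mod_cast h3

end

section
variable {F : Type} [Field F] [Fintype F] [DecidableEq F] {g r m : ℕ}

/-- The value of the member `t` at `x`. -/
noncomputable def vl (g r : ℕ) (t : Fin m → F) (x : F) : F :=
  AA F r (ex t) x * UU F (2 * g + 1 - r) r (ex t) x + HH F g (ex t) x ^ 2

theorem vl_eq (t : Fin m → F) (x : F) : (fam g r (ex t)).eval x = vl g r t x := by
  unfold vl
  rw [← aeval_fam]
  rw [coe_aeval_eq_eval]

/-- The sum of the character over the line. -/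
noncomputable def S1 (g r : ℕ) (t : Fin m → F) : ℝ := ∑ x : F, ch (vl g r t x)

theorem zero_out (h2 : ringChar F ≠ 2) (hr : r ≤ 2 * g) (hm : 2 * g + 1 < m) (x : F) (G : (Fin m → F) → ℝ)
    (hG : ∀ (t : Fin m → F) (s : F), G (fun i => t i + s * dir m r 1 0 i) = G t) :
    ∑ t : Fin m → F, (if AA F r (ex t) x = 0 then 0 else G t * ch (vl g r t x)) = 0 := by
  refine sum_shift _ (dir m r 1 0) fun t => ?_
  have h1 : ∀ s : F, AA F r (ex (fun i => t i + s * dir m r 1 0 i)) x = AA F r (ex t) x := fun s =>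
    AA_shift hm hr le_rfl (by omega) 1 0 t s x
  simp only [h1, hG]
  by_cases hA : AA F r (ex t) x = 0
  · simp only [if_pos hA, sum_const_zero]
  · simp only [if_neg hA]
    rw [← mul_sum]
    have h3 : ∀ s : F, vl g r (fun i => t i + s * dir m r 1 0 i) x = vl g r t x + s * AA F r (ex t) x := by
      intro s
      unfold vl
      rw [h1, UU_shift hm hr 1 0 (fun _ => rfl), HH_same hr hm 1 0 (fun _ => rfl)]
      simp only [Algebra.algebraMap_self, RingHom.id_apply]
      ring
    simp only [h3]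
    rw [sum_ch_affine h2 _ _ hA, mul_zero]

theorem vl_of_zero {t : Fin m → F} {x : F} (h : AA F r (ex t) x = 0) : ch (vl g r t x) = if HH F g (ex t) x = 0 then 0 else 1 := by
  unfold vl
  rw [h, zero_mul, zero_add, ch_sq_val]

/-- **The first moment.** -/
theorem moment_one (h2 : ringChar F ≠ 2) (hg : 1 ≤ g) (hr : r ≤ 2 * g) (hm : m = 3 * g + 2) :
    |∑ t : Fin m → F, S1 g r t - r * Fintype.card F ^ m| * Fintype.card F ≤
      r * (r ^ 2 + r) * (Fintype.card F : ℝ) ^ m := by
  classical
  have hm1 : 2 * g + 1 < m := by omega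
  obtain ⟨q, hq⟩ : ∃ q : ℝ, q = Fintype.card F := ⟨_, rfl⟩
  have hq0 : 0 < q := by rw [hq]; exact_mod_cast Fintype.card_pos
  have hcard : (Fintype.card (Fin m → F) : ℝ) = q ^ m := by
    rw [Fintype.card_fun, Fintype.card_fin, hq]
    push_cast
    rfl
  -- the number of the marked points
  obtain ⟨N, hN⟩ : ∃ N : (Fin m → F) → Finset F, N = fun t => univ.filter fun x => AA F r (ex t) x = 0 ∧ HH F g (ex t) x ≠ 0 := ⟨_, rfl⟩
  have h1 : ∑ t : Fin m → F, S1 g r t = ∑ t : Fin m → F, ((N t).card : ℝ) := by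
    unfold S1
    rw [sum_comm]
    have h3 : ∀ t : Fin m → F, ((N t).card : ℝ) = ∑ x : F, if AA F r (ex t) x = 0 ∧ HH F g (ex t) x ≠ 0 then (1 : ℝ) else 0 := by
      intro t
      rw [sum_boole, hN]
    simp only [h3]
    rw [sum_comm (s := univ) (t := univ) (f := fun (t : Fin m → F) (x : F) => if AA F r (ex t) x = 0 ∧ HH F g (ex t) x ≠ 0 then (1 : ℝ) else 0)]
    refine sum_congr rfl fun x _ => ?_
    have h4 := zero_out h2 hr hm1 x (fun _ => 1) (fun _ _ => rfl)
    have h5 : ∀ t : Fin m → F, ch (vl g r t x) = (if AA F r (ex t) x = 0 ∧ HH F g (ex t) x ≠ 0 then (1 : ℝ) else 0) +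
        (if AA F r (ex t) x = 0 then 0 else 1 * ch (vl g r t x)) := by
      intro t
      by_cases hA : AA F r (ex t) x = 0
      · rw [if_pos hA, vl_of_zero hA, add_zero]
        by_cases hH : HH F g (ex t) x = 0
        · rw [if_pos hH, if_neg (fun h => h.2 hH)]
        · rw [if_neg hH, if_pos ⟨hA, hH⟩]
      · rw [if_neg hA, if_neg (fun h => hA h.1), zero_add, one_mul]
    rw [sum_congr rfl fun t _ => h5 t, sum_add_distrib, h4, add_zero]
  -- the exceptions
  obtain ⟨B1, hB1⟩ : ∃ B1 : ℕ → ℕ → (Fin m → F) → Prop, B1 = fun i j t => ex t i = ex t j := ⟨_, rfl⟩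
  obtain ⟨B2, hB2⟩ : ∃ B2 : ℕ → (Fin m → F) → Prop, B2 = fun i t => HH F g (ex t) (ex t i) = 0 := ⟨_, rfl⟩
  have hc1 : ∀ i < r, ∀ j < r, i ≠ j → ((univ.filter (B1 i j)).card : ℝ) * q ≤ q ^ m := by
    intro i hi j hj hij
    have h3 := cnt_le (B1 i j) (dir m i 1 0) 1 fun t => by
      refine lin1 (ex t i - ex t j) one_ne_zero _ fun s hs => ?_
      rw [hB1] at hs
      simp only [ex_add, ex_dir (show i + 1 < m by omega)] at hs
      rw [if_pos trivial, if_neg hij.symm] at hs
      have : (if j = i + 1 then (0 : F) else 0) = 0 := by split_ifs <;> rfl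
      rw [this] at hs
      linear_combination hs
    rw [one_mul, ← hq] at h3
    exact h3
  have hc2 : ∀ i < r, ((univ.filter (B2 i)).card : ℝ) * q ≤ q ^ m := by
    intro i hi
    have h3 := cnt_le (B2 i) (dir m (2 * g + 1) 1 0) 1 fun t => by
      refine lin1 (HH F g (ex t) (ex t i)) one_ne_zero _ fun s hs => ?_
      rw [hB2] at hs
      have e1 : ex (fun k => t k + s * dir m (2 * g + 1) 1 0 k) i = ex t i := by
        rw [ex_add, ex_dir (show 2 * g + 1 + 1 < m by omega), if_neg (by omega), if_neg (by omega), mul_zero, add_zero]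
      have hs' : HH F g (ex (fun k => t k + s * dir m (2 * g + 1) 1 0 k)) (ex (fun k => t k + s * dir m (2 * g + 1) 1 0 k) i) = 0 := hs
      rw [e1, HH_shift hg hm] at hs'
      simp only [Algebra.algebraMap_self, RingHom.id_apply] at hs'
      linear_combination hs'
    rw [one_mul, ← hq] at h3
    exact h3
  have hsub : ∀ t : Fin m → F, N t ⊆ (range r).image (ex t) := by
    intro t x hx
    rw [hN] at hx
    obtain ⟨i, hi, hxi⟩ := (AA_zero_iff r (ex t) x).1 (mem_filter.1 hx).2.1
    rw [mem_image]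
    exact ⟨i, mem_range.2 hi, by rw [hxi]; rfl⟩
  have hle : ∀ t : Fin m → F, ((N t).card : ℝ) ≤ r := by
    intro t
    have : (N t).card ≤ r := (card_le_card (hsub t)).trans (card_image_le.trans (by rw [card_range]))
    exact_mod_cast this
  have hbad : ∀ t : Fin m → F, |((N t).card : ℝ) - r| ≤ r * ((∑ i ∈ range r, ∑ j ∈ range r, if i ≠ j ∧ B1 i j t then (1 : ℝ) else 0) +
      ∑ i ∈ range r, if B2 i t then (1 : ℝ) else 0) := by
    intro t
    have hz1 : 0 ≤ ∑ i ∈ range r, ∑ j ∈ range r, (if i ≠ j ∧ B1 i j t then (1 : ℝ) else 0) :=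
      sum_nonneg fun i _ => sum_nonneg fun j _ => by split_ifs <;> norm_num
    have hz2 : 0 ≤ ∑ i ∈ range r, (if B2 i t then (1 : ℝ) else 0) := sum_nonneg fun i _ => by split_ifs <;> norm_num
    have hr0 : (0 : ℝ) ≤ r := Nat.cast_nonneg r
    have hN0 : (0 : ℝ) ≤ (N t).card := Nat.cast_nonneg _
    by_cases hgood : (∀ i < r, ∀ j < r, i ≠ j → ¬ B1 i j t) ∧ ∀ i < r, ¬ B2 i t
    · have h3 : N t = (range r).image (ex t) := by
        refine Subset.antisymm (hsub t) ?_
        intro x hx
        rw [mem_image] at hx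
        obtain ⟨i, hi, rfl⟩ := hx
        rw [hN]
        refine mem_filter.2 ⟨mem_univ _, (AA_zero_iff r (ex t) _).2 ⟨i, mem_range.1 hi, rfl⟩, ?_⟩
        have h4 := hgood.2 i (mem_range.1 hi)
        rw [hB2] at h4
        exact h4
      have h4 : (N t).card = r := by
        rw [h3, card_image_of_injOn, card_range]
        intro i hi j hj hij
        by_contra hne
        have h5 := hgood.1 i (mem_range.1 hi) j (mem_range.1 hj) hne
        rw [hB1] at h5
        exact h5 hij
      rw [h4, sub_self, abs_zero]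
      positivity
    · have h3 : 1 ≤ (∑ i ∈ range r, ∑ j ∈ range r, (if i ≠ j ∧ B1 i j t then (1 : ℝ) else 0)) +
          ∑ i ∈ range r, (if B2 i t then (1 : ℝ) else 0) := by
        rw [not_and_or] at hgood
        rcases hgood with h | h
        · push Not at h
          obtain ⟨i, hi, j, hj, hij, hb⟩ := h
          have h4 : (1 : ℝ) ≤ ∑ i ∈ range r, ∑ j ∈ range r, (if i ≠ j ∧ B1 i j t then (1 : ℝ) else 0) := by
            calc (1 : ℝ) = if i ≠ j ∧ B1 i j t then (1 : ℝ) else 0 := by rw [if_pos ⟨hij, hb⟩]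
              _ ≤ ∑ j ∈ range r, (if i ≠ j ∧ B1 i j t then (1 : ℝ) else 0) :=
                  single_le_sum (f := fun j => if i ≠ j ∧ B1 i j t then (1 : ℝ) else 0)
                    (fun k _ => by split_ifs <;> norm_num) (mem_range.2 hj)
              _ ≤ _ := single_le_sum (f := fun i => ∑ j ∈ range r, (if i ≠ j ∧ B1 i j t then (1 : ℝ) else 0))
                    (fun k _ => sum_nonneg fun j _ => by split_ifs <;> norm_num) (mem_range.2 hi)
          linarith
        · push Not at h
          obtain ⟨i, hi, hb⟩ := h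
          have h4 : (1 : ℝ) ≤ ∑ i ∈ range r, (if B2 i t then (1 : ℝ) else 0) := by
            calc (1 : ℝ) = if B2 i t then (1 : ℝ) else 0 := by rw [if_pos hb]
              _ ≤ _ := single_le_sum (f := fun i => if B2 i t then (1 : ℝ) else 0)
                    (fun k _ => by split_ifs <;> norm_num) (mem_range.2 hi)
          linarith
      have h4 := hle t
      rw [abs_le]
      constructor <;> nlinarith
  have hfin : |∑ t : Fin m → F, S1 g r t - r * q ^ m| ≤ r * ((∑ i ∈ range r, ∑ j ∈ range r,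
      if i ≠ j then ((univ.filter (B1 i j)).card : ℝ) else 0) + ∑ i ∈ range r, ((univ.filter (B2 i)).card : ℝ)) := by
    have e : (r : ℝ) * q ^ m = ∑ t : Fin m → F, (r : ℝ) := by
      rw [sum_const, card_univ, nsmul_eq_mul, hcard, mul_comm]
    rw [h1, e, ← sum_sub_distrib]
    refine (abs_sum_le_sum_abs _ _).trans ((sum_le_sum fun t _ => hbad t).trans (le_of_eq ?_))
    rw [← mul_sum, sum_add_distrib]
    congr 2
    · rw [sum_comm]
      refine sum_congr rfl fun i _ => ?_
      rw [sum_comm]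
      refine sum_congr rfl fun j _ => ?_
      by_cases hij : i ≠ j
      · rw [if_pos hij, ← sum_boole]
        refine sum_congr rfl fun t _ => ?_
        by_cases hb : B1 i j t
        · rw [if_pos ⟨hij, hb⟩, if_pos hb]
        · rw [if_neg (fun h => hb h.2), if_neg hb]
      · rw [if_neg hij]
        refine sum_eq_zero fun t _ => ?_
        rw [if_neg (fun h => hij h.1)]
    · rw [sum_comm]
      refine sum_congr rfl fun i _ => ?_
      rw [sum_boole]
  rw [← hq]
  have hr0 : (0 : ℝ) ≤ r := Nat.cast_nonneg r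
  calc |∑ t : Fin m → F, S1 g r t - r * q ^ m| * q ≤ r * ((∑ i ∈ range r, ∑ j ∈ range r,
      if i ≠ j then ((univ.filter (B1 i j)).card : ℝ) else 0) + ∑ i ∈ range r, ((univ.filter (B2 i)).card : ℝ)) * q :=
        mul_le_mul_of_nonneg_right hfin hq0.le
    _ = r * ((∑ i ∈ range r, ∑ j ∈ range r, (if i ≠ j then ((univ.filter (B1 i j)).card : ℝ) else 0) * q) +
        ∑ i ∈ range r, ((univ.filter (B2 i)).card : ℝ) * q) := by
        rw [mul_assoc, add_mul, sum_mul, sum_mul]
        simp only [sum_mul]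
    _ ≤ r * ((∑ i ∈ range r, ∑ j ∈ range r, q ^ m) + ∑ i ∈ range r, q ^ m) := by
        apply mul_le_mul_of_nonneg_left _ hr0
        apply add_le_add
        · refine sum_le_sum fun i hi => sum_le_sum fun j hj => ?_
          by_cases hij : i ≠ j
          · rw [if_pos hij]
            exact hc1 i (mem_range.1 hi) j (mem_range.1 hj) hij
          · rw [if_neg hij, zero_mul]
            positivity
        · exact sum_le_sum fun i hi => hc2 i (mem_range.1 hi)
    _ = r * (r ^ 2 + r) * q ^ m := by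
        rw [sum_const, sum_const, card_range, nsmul_eq_mul, nsmul_eq_mul]
        ring

end

end Pool.Agent.V5helper57.Hyp
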