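import Pool.Agent.V5helper57.Hyp.Mom

/-!
# The second moment of the character sums over the families of hyperelliptic curves
-/

set_option autoImplicit false

namespace Pool.Agent.V5helper57.Hyp

open Finset Polynomial
open Pool.Agent.N647.NG (ch ch_abs sum_ch sum_ch_affine card_sqrt sum_shift weil_odd)

section
variable {F : Type} [Field F] [Fintype F] [DecidableEq F] {g r m : ℕ}

/-- The values vanish rarely. -/
theorem zero_cnt (hg : 1 ≤ g) (hr : r ≤ 2 * g) (hm : m = 3 * g + 2) (x : F) :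
    ((univ.filter fun t : Fin m → F => vl g r t x = 0).card : ℝ) * Fintype.card F ≤ 2 * (Fintype.card F : ℝ) ^ m := by
  refine cnt_le (fun t : Fin m → F => vl g r t x = 0) (dir m (2 * g + 1) 1 0) 2 fun t => ?_
  refine quad2 (AA F r (ex t) x * UU F (2 * g + 1 - r) r (ex t) x) (HH F g (ex t) x) _ fun s hs => ?_
  have hs' : vl g r (fun k => t k + s * dir m (2 * g + 1) 1 0 k) x = 0 := hs
  unfold vl at hs'
  rw [AA_shift (g := g) (by omega) hr (by omega) (by omega), UU_same hr le_rfl (by omega), HH_shift hg hm] at hs'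
  simp only [Algebra.algebraMap_self, RingHom.id_apply] at hs'
  linear_combination hs'

/-- Pairs with exactly one marked point. -/
theorem pair_mixed (h2 : ringChar F ≠ 2) (hr : r ≤ 2 * g) (hm : 2 * g + 1 < m) (x y : F) :
    ∑ t : Fin m → F, (if AA F r (ex t) x ≠ 0 ∧ AA F r (ex t) y = 0 then ch (vl g r t x) * ch (vl g r t y) else 0) = 0 := by
  have h1 := zero_out h2 hr hm x (fun t : Fin m → F => if AA F r (ex t) y = 0 then ch (vl g r t y) else 0) (fun t s => by
    have e1 : AA F r (ex (fun i => t i + s * dir m r 1 0 i)) y = AA F r (ex t) y := AA_shift hm hr le_rfl (by omega) 1 0 t s y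
    rw [e1]
    by_cases hA : AA F r (ex t) y = 0
    · rw [if_pos hA, if_pos hA, vl_of_zero hA, vl_of_zero (e1.trans hA), HH_same hr hm 1 0 (fun _ => rfl)]
    · rw [if_neg hA, if_neg hA])
  refine Eq.trans (sum_congr rfl fun t _ => ?_) h1
  by_cases hx : AA F r (ex t) x = 0
  · rw [if_pos hx, if_neg (fun h => h.1 hx)]
  · rw [if_neg hx]
    by_cases hy : AA F r (ex t) y = 0
    · rw [if_pos hy, if_pos ⟨hx, hy⟩]
      ring
    · rw [if_neg hy, if_neg (fun h => hy h.2), zero_mul]

/-- Pairs without marked points, if `u` has at least two coefficients. -/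
theorem pair_free (h2 : ringChar F ≠ 2) (hr : r < 2 * g) (hm : 2 * g + 1 < m) {x y : F} (hxy : x ≠ y) :
    ∑ t : Fin m → F, (if AA F r (ex t) x ≠ 0 ∧ AA F r (ex t) y ≠ 0 then ch (vl g r t x) * ch (vl g r t y) else 0) = 0 := by
  refine sum_shift _ (dir m r (-y) 1) fun t => ?_
  have hA : ∀ (s z : F), AA F r (ex (fun i => t i + s * dir m r (-y) 1 i)) z = AA F r (ex t) z := fun s z =>
    AA_shift hm hr.le le_rfl (by omega) _ _ t s z
  simp only [hA]
  by_cases hc : AA F r (ex t) x ≠ 0 ∧ AA F r (ex t) y ≠ 0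
  · simp only [if_pos hc]
    have h3 : ∀ s z : F, vl g r (fun i => t i + s * dir m r (-y) 1 i) z = vl g r t z + s * (AA F r (ex t) z * (z - y)) := by
      intro s z
      unfold vl
      rw [hA, UU_shift hm hr.le _ _ (fun h => absurd h hr.ne), HH_same hr.le hm _ _ (fun h => absurd h hr.ne)]
      simp only [Algebra.algebraMap_self, RingHom.id_apply]
      ring
    simp only [h3, sub_self, mul_zero, add_zero]
    rw [← sum_mul, sum_ch_affine h2 _ _ (mul_ne_zero hc.1 (sub_ne_zero.2 hxy)), zero_mul]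
  · simp only [if_neg hc, sum_const_zero]

theorem UU_one (hr : r = 2 * g) (t : Fin m → F) (x : F) : UU F (2 * g + 1 - r) r (ex t) x = x + ex t r := by
  have : 2 * g + 1 - r = 1 := by omega
  unfold UU
  rw [this, sum_range_one, pow_one, pow_zero, mul_one, add_zero]
  rfl

/-- Pairs without marked points, if `u` is linear. -/
theorem pair_lin (h2 : ringChar F ≠ 2) (hg : 1 ≤ g) (hr : r = 2 * g) (hm : m = 3 * g + 2) {x y : F} (hxy : x ≠ y) :
    |∑ t : Fin m → F, (if AA F r (ex t) x ≠ 0 ∧ AA F r (ex t) y ≠ 0 then ch (vl g r t x) * ch (vl g r t y) else 0)| *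
      (Fintype.card F : ℝ) ^ 2 ≤ 3 * (Fintype.card F : ℝ) ^ m := by
  classical
  obtain ⟨q, hq⟩ : ∃ q : ℝ, q = Fintype.card F := ⟨_, rfl⟩
  have hq0 : 0 < q := by rw [hq]; exact_mod_cast Fintype.card_pos
  have hcard : (Fintype.card (Fin m → F) : ℝ) = q ^ m := by
    rw [Fintype.card_fun, Fintype.card_fin, hq]
    push_cast
    rfl
  obtain ⟨Φ, hΦ⟩ : ∃ Φ : (Fin m → F) → ℝ, Φ = fun t => if AA F r (ex t) x ≠ 0 ∧ AA F r (ex t) y ≠ 0 then
    ch (vl g r t x) * ch (vl g r t y) else 0 := ⟨_, rfl⟩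
  have h1 : ∑ t : Fin m → F, ∑ s : F, ∑ s' : F, Φ (fun i => t i + 1 * dir m (2 * g + 1) s' s i) = q ^ 2 * ∑ t, Φ t := by
    rw [sum_comm]
    have h3 : ∀ s : F, ∑ t : Fin m → F, ∑ s' : F, Φ (fun i => t i + 1 * dir m (2 * g + 1) s' s i) = q * ∑ t, Φ t := by
      intro s
      rw [sum_comm, sum_congr rfl fun s' _ => sum_trans Φ (dir m (2 * g + 1) s' s), sum_const, card_univ, nsmul_eq_mul, ← hq]
    rw [sum_congr rfl fun s _ => h3 s, sum_const, card_univ, nsmul_eq_mul, ← hq]
    ring
  obtain ⟨a, ha⟩ : ∃ a : (Fin m → F) → F → F, a = fun t z => AA F r (ex t) z * UU F (2 * g + 1 - r) r (ex t) z := ⟨_, rfl⟩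
  have h3 : ∀ t : Fin m → F, ∑ s : F, ∑ s' : F, Φ (fun i => t i + 1 * dir m (2 * g + 1) s' s i) =
      if AA F r (ex t) x ≠ 0 ∧ AA F r (ex t) y ≠ 0 then ((if a t x = 0 then q else 0) - 1) * ((if a t y = 0 then q else 0) - 1) else 0 := by
    intro t
    have hA : ∀ (s s' z : F), AA F r (ex (fun i => t i + 1 * dir m (2 * g + 1) s' s i)) z = AA F r (ex t) z := fun s s' z =>
      AA_shift (g := g) (by omega) hr.le (by omega) (by omega) _ _ t 1 z
    rw [hΦ]
    simp only [hA]
    by_cases hc : AA F r (ex t) x ≠ 0 ∧ AA F r (ex t) y ≠ 0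
    · simp only [if_pos hc]
      have h4 : ∀ s s' z : F, vl g r (fun i => t i + 1 * dir m (2 * g + 1) s' s i) z =
          a t z + (HH F g (ex t) z + (s * z + s')) ^ 2 := by
        intro s s' z
        unfold vl
        rw [hA, UU_same hr.le le_rfl (by omega), HH_shift hg hm, ha]
        simp only [Algebra.algebraMap_self, RingHom.id_apply]
        ring
      simp only [h4]
      rw [Q282.BP.sum_two hxy (fun w => ch (a t x + (HH F g (ex t) x + w) ^ 2)) (fun w => ch (a t y + (HH F g (ex t) y + w) ^ 2))]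
      have h5 : ∀ z : F, ∑ w : F, ch (a t z + (HH F g (ex t) z + w) ^ 2) = (if a t z = 0 then q else 0) - 1 := by
        intro z
        have h6 : ∑ w : F, ch (a t z + (HH F g (ex t) z + w) ^ 2) = ∑ L : F, ch (a t z + L ^ 2) :=
          Fintype.sum_equiv (Equiv.addLeft (HH F g (ex t) z)) _ _ fun _ => rfl
        rw [h6, hq]
        exact Q282.BP.sum_shift_sq h2 (a t z)
      rw [h5, h5]
    · simp only [if_neg hc, sum_const_zero]
  have hlin : ∀ z : F, ((univ.filter fun t : Fin m → F => z + ex t r = 0).card : ℝ) * q ≤ q ^ m := by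
    intro z
    have h4 := cnt_le (fun t : Fin m → F => z + ex t r = 0) (dir m r 1 0) 1 fun t => by
      refine lin1 (z + ex t r) one_ne_zero _ fun s hs => ?_
      simp only [ex_add, ex_dir (show r + 1 < m by omega)] at hs
      rw [if_pos trivial] at hs
      linear_combination hs
    rw [one_mul, ← hq] at h4
    exact h4
  have h5 : ∀ t : Fin m → F, |if AA F r (ex t) x ≠ 0 ∧ AA F r (ex t) y ≠ 0 then ((if a t x = 0 then q else 0) - 1) *
      ((if a t y = 0 then q else 0) - 1) else 0| ≤ 1 + (if x + ex t r = 0 then q else 0) + (if y + ex t r = 0 then q else 0) := by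
    intro t
    have hn1 : 0 ≤ (if x + ex t r = 0 then q else 0) := by split_ifs <;> linarith
    have hn2 : 0 ≤ (if y + ex t r = 0 then q else 0) := by split_ifs <;> linarith
    by_cases hc : AA F r (ex t) x ≠ 0 ∧ AA F r (ex t) y ≠ 0
    · rw [if_pos hc]
      have e1 : a t x = 0 ↔ x + ex t r = 0 := by
        rw [ha]
        show AA F r (ex t) x * UU F (2 * g + 1 - r) r (ex t) x = 0 ↔ _
        rw [UU_one hr, mul_eq_zero, or_iff_right hc.1]
      have e2 : a t y = 0 ↔ y + ex t r = 0 := by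
        rw [ha]
        show AA F r (ex t) y * UU F (2 * g + 1 - r) r (ex t) y = 0 ↔ _
        rw [UU_one hr, mul_eq_zero, or_iff_right hc.2]
      simp only [e1, e2]
      have hq1 : 1 ≤ q := by rw [hq]; exact_mod_cast Fintype.card_pos
      by_cases hx : x + ex t r = 0
      · have hy : y + ex t r ≠ 0 := by
          intro hy
          apply hxy
          linear_combination hx - hy
        rw [if_pos hx, if_neg hy, abs_le]
        constructor <;> linarith
      · by_cases hy : y + ex t r = 0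
        · rw [if_neg hx, if_pos hy, abs_le]
          constructor <;> linarith
        · rw [if_neg hx, if_neg hy, abs_le]
          constructor <;> linarith
    · rw [if_neg hc, abs_zero]
      linarith
  have h6 : |∑ t, Φ t| * q ^ 2 ≤ 3 * q ^ m := by
    have h7 : |∑ t, Φ t| * q ^ 2 = |∑ t : Fin m → F, ∑ s : F, ∑ s' : F, Φ (fun i => t i + 1 * dir m (2 * g + 1) s' s i)| := by
      rw [h1, abs_mul, abs_of_pos (by positivity : 0 < q ^ 2), mul_comm]
    rw [h7]
    refine (abs_sum_le_sum_abs _ _).trans ?_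
    refine (sum_le_sum (g := fun t => 1 + (if x + ex t r = 0 then q else 0) + (if y + ex t r = 0 then q else 0)) fun t _ => ?_).trans ?_
    · rw [h3 t]
      exact h5 t
    · rw [sum_add_distrib, sum_add_distrib, sum_const, card_univ, nsmul_eq_mul, mul_one, hcard, ← sum_filter, ← sum_filter,
        sum_const, sum_const, nsmul_eq_mul, nsmul_eq_mul]
      have := hlin x
      have := hlin y
      linarith
  rw [← hq]
  rw [hΦ] at h6
  exact h6

/-- **The second moment.** -/
theorem moment_two (h2 : ringChar F ≠ 2) (hg : 1 ≤ g) (hr : r ≤ 2 * g) (hm : m = 3 * g + 2) :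
    |∑ t : Fin m → F, S1 g r t ^ 2 - Fintype.card F * (Fintype.card F : ℝ) ^ m| ≤ (r ^ 2 + 5) * (Fintype.card F : ℝ) ^ m := by
  classical
  have hm1 : 2 * g + 1 < m := by omega
  obtain ⟨q, hq⟩ : ∃ q : ℝ, q = Fintype.card F := ⟨_, rfl⟩
  have hq0 : 0 < q := by rw [hq]; exact_mod_cast Fintype.card_pos
  have hcard : (Fintype.card (Fin m → F) : ℝ) = q ^ m := by
    rw [Fintype.card_fun, Fintype.card_fin, hq]
    push_cast
    rfl
  have e1 : ∑ t : Fin m → F, S1 g r t ^ 2 = ∑ x : F, ∑ y : F, ∑ t : Fin m → F, ch (vl g r t x) * ch (vl g r t y) := by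
    have : ∀ t : Fin m → F, S1 g r t ^ 2 = ∑ x : F, ∑ y : F, ch (vl g r t x) * ch (vl g r t y) := by
      intro t
      unfold S1
      rw [sq, sum_mul_sum]
    rw [sum_congr rfl fun t _ => this t, sum_comm]
    refine sum_congr rfl fun x _ => ?_
    rw [sum_comm]
  -- the diagonal
  have hdiag : ∀ x : F, |∑ t : Fin m → F, ch (vl g r t x) * ch (vl g r t x) - q ^ m| * q ≤ 2 * q ^ m := by
    intro x
    have h3 : ∀ t : Fin m → F, ch (vl g r t x) * ch (vl g r t x) = 1 - (if vl g r t x = 0 then (1 : ℝ) else 0) := by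
      intro t
      rw [← sq, ch_sq_eq]
      split_ifs <;> norm_num
    rw [sum_congr rfl fun t _ => h3 t, sum_sub_distrib, sum_const, card_univ, nsmul_eq_mul, mul_one, hcard, sum_boole,
      sub_sub_cancel_left, abs_neg, abs_of_nonneg (by positivity), hq]
    exact zero_cnt hg hr hm x
  -- the pairs
  have hoff : ∀ x y : F, x ≠ y → |∑ t : Fin m → F, ch (vl g r t x) * ch (vl g r t y)| * q ^ 2 ≤
      3 * q ^ m + ((univ.filter fun t : Fin m → F => AA F r (ex t) x = 0 ∧ AA F r (ex t) y = 0).card : ℝ) * q ^ 2 := by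
    intro x y hxy
    have h3 : ∑ t : Fin m → F, ch (vl g r t x) * ch (vl g r t y) =
        ∑ t : Fin m → F, (if AA F r (ex t) x ≠ 0 ∧ AA F r (ex t) y ≠ 0 then ch (vl g r t x) * ch (vl g r t y) else 0) +
        ∑ t : Fin m → F, (if AA F r (ex t) x ≠ 0 ∧ AA F r (ex t) y = 0 then ch (vl g r t x) * ch (vl g r t y) else 0) +
        ∑ t : Fin m → F, (if AA F r (ex t) y ≠ 0 ∧ AA F r (ex t) x = 0 then ch (vl g r t y) * ch (vl g r t x) else 0) +
        ∑ t : Fin m → F, (if AA F r (ex t) x = 0 ∧ AA F r (ex t) y = 0 then ch (vl g r t x) * ch (vl g r t y) else 0) := by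
      rw [← sum_add_distrib, ← sum_add_distrib, ← sum_add_distrib]
      refine sum_congr rfl fun t _ => ?_
      by_cases hx : AA F r (ex t) x = 0 <;> by_cases hy : AA F r (ex t) y = 0 <;> simp [hx, hy] <;> ring
    have h4 : |∑ t : Fin m → F, (if AA F r (ex t) x ≠ 0 ∧ AA F r (ex t) y ≠ 0 then ch (vl g r t x) * ch (vl g r t y) else 0)| *
        q ^ 2 ≤ 3 * q ^ m := by
      rcases hr.lt_or_eq with h | h
      · rw [pair_free h2 h hm1 hxy, abs_zero, zero_mul]
        positivity
      · rw [hq]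
        exact pair_lin h2 hg h hm hxy
    have h5 : |∑ t : Fin m → F, (if AA F r (ex t) x = 0 ∧ AA F r (ex t) y = 0 then ch (vl g r t x) * ch (vl g r t y) else 0)| ≤
        ((univ.filter fun t : Fin m → F => AA F r (ex t) x = 0 ∧ AA F r (ex t) y = 0).card : ℝ) := by
      rw [← sum_boole]
      refine (abs_sum_le_sum_abs _ _).trans (sum_le_sum fun t _ => ?_)
      split_ifs
      · rw [abs_mul]
        have := ch_abs (vl g r t x)
        have := ch_abs (vl g r t y)
        have := abs_nonneg (ch (vl g r t x))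
        have := abs_nonneg (ch (vl g r t y))
        nlinarith
      · rw [abs_zero]
    rw [h3, pair_mixed h2 hr hm1, pair_mixed h2 hr hm1, add_zero, add_zero]
    have h6 := abs_add_le (∑ t : Fin m → F, (if AA F r (ex t) x ≠ 0 ∧ AA F r (ex t) y ≠ 0 then ch (vl g r t x) * ch (vl g r t y) else 0))
      (∑ t : Fin m → F, (if AA F r (ex t) x = 0 ∧ AA F r (ex t) y = 0 then ch (vl g r t x) * ch (vl g r t y) else 0))
    have hq2 : 0 < q ^ 2 := by positivity
    nlinarith
  -- the number of pairs of marked points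
  have hpairs : ∑ x : F, ∑ y : F, ((univ.filter fun t : Fin m → F => AA F r (ex t) x = 0 ∧ AA F r (ex t) y = 0).card : ℝ) ≤
      r ^ 2 * q ^ m := by
    have h3 : ∑ x : F, ∑ y : F, ((univ.filter fun t : Fin m → F => AA F r (ex t) x = 0 ∧ AA F r (ex t) y = 0).card : ℝ) =
        ∑ t : Fin m → F, ((univ.filter fun x : F => AA F r (ex t) x = 0).card : ℝ) ^ 2 := by
      have h4 : ∀ t : Fin m → F, ((univ.filter fun x : F => AA F r (ex t) x = 0).card : ℝ) ^ 2 =
          ∑ x : F, ∑ y : F, if AA F r (ex t) x = 0 ∧ AA F r (ex t) y = 0 then (1 : ℝ) else 0 := by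
        intro t
        rw [← sum_boole, sq, sum_mul_sum]
        refine sum_congr rfl fun x _ => sum_congr rfl fun y _ => ?_
        by_cases hx : AA F r (ex t) x = 0 <;> by_cases hy : AA F r (ex t) y = 0 <;> simp [hx, hy]
      symm
      rw [sum_congr rfl fun t _ => h4 t, sum_comm]
      refine sum_congr rfl fun x _ => ?_
      rw [sum_comm]
      refine sum_congr rfl fun y _ => ?_
      rw [sum_boole]
    rw [h3]
    have h4 : ∀ t : Fin m → F, ((univ.filter fun x : F => AA F r (ex t) x = 0).card : ℝ) ^ 2 ≤ (r : ℝ) ^ 2 := by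
      intro t
      have h5 : (univ.filter fun x : F => AA F r (ex t) x = 0) ⊆ (range r).image (ex t) := by
        intro x hx
        obtain ⟨i, hi, hxi⟩ := (AA_zero_iff r (ex t) x).1 (mem_filter.1 hx).2
        rw [mem_image]
        exact ⟨i, mem_range.2 hi, by rw [hxi]; rfl⟩
      have h6 : (univ.filter fun x : F => AA F r (ex t) x = 0).card ≤ r :=
        (card_le_card h5).trans (card_image_le.trans (by rw [card_range]))
      have h7 : ((univ.filter fun x : F => AA F r (ex t) x = 0).card : ℝ) ≤ r := by exact_mod_cast h6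
      exact pow_le_pow_left₀ (by positivity) h7 2
    refine (sum_le_sum fun t _ => h4 t).trans (le_of_eq ?_)
    rw [sum_const, card_univ, nsmul_eq_mul, hcard, mul_comm]
  rw [← hq, e1]
  have hqm : (q : ℝ) * q ^ m = ∑ x : F, q ^ m := by
    rw [sum_const, card_univ, nsmul_eq_mul, hq]
  have hsplit : ∑ x : F, ∑ y : F, ∑ t : Fin m → F, ch (vl g r t x) * ch (vl g r t y) - q * q ^ m =
      ∑ x : F, ((∑ t : Fin m → F, ch (vl g r t x) * ch (vl g r t x) - q ^ m) +
        ∑ y ∈ univ.erase x, ∑ t : Fin m → F, ch (vl g r t x) * ch (vl g r t y)) := by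
    rw [hqm, ← sum_sub_distrib]
    refine sum_congr rfl fun x _ => ?_
    rw [← Finset.add_sum_erase univ (fun y : F => ∑ t : Fin m → F, ch (vl g r t x) * ch (vl g r t y)) (mem_univ x)]
    ring
  rw [hsplit]
  have hx : ∀ x : F, |(∑ t : Fin m → F, ch (vl g r t x) * ch (vl g r t x) - q ^ m) +
        ∑ y ∈ univ.erase x, ∑ t : Fin m → F, ch (vl g r t x) * ch (vl g r t y)| ≤
      2 * q ^ m / q + (3 * q ^ m / q + ∑ y : F, ((univ.filter fun t : Fin m → F => AA F r (ex t) x = 0 ∧ AA F r (ex t) y = 0).card : ℝ)) := by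
    intro x
    refine (abs_add_le _ _).trans (add_le_add ?_ ?_)
    · rw [le_div_iff₀ hq0]
      exact hdiag x
    · refine (abs_sum_le_sum_abs _ _).trans ?_
      have h3 : ∀ y ∈ univ.erase x, |∑ t : Fin m → F, ch (vl g r t x) * ch (vl g r t y)| ≤
          3 * q ^ m / q ^ 2 + ((univ.filter fun t : Fin m → F => AA F r (ex t) x = 0 ∧ AA F r (ex t) y = 0).card : ℝ) := by
        intro y hy
        have hne : x ≠ y := (ne_of_mem_erase hy).symm
        have h4 := hoff x y hne
        have hq2 : 0 < q ^ 2 := by positivity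
        rw [← le_div_iff₀ hq2] at h4
        refine h4.trans (le_of_eq ?_)
        field_simp
      refine (sum_le_sum h3).trans ?_
      rw [sum_add_distrib, sum_const, nsmul_eq_mul]
      apply add_le_add
      · have h4 : ((univ.erase x).card : ℝ) ≤ q := by
          rw [hq]
          exact_mod_cast card_le_univ _
        calc ((univ.erase x).card : ℝ) * (3 * q ^ m / q ^ 2) ≤ q * (3 * q ^ m / q ^ 2) := by gcongr
          _ = 3 * q ^ m / q := by field_simp
      · exact sum_le_sum_of_subset_of_nonneg (erase_subset _ _) fun y _ _ => by positivity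
  refine (abs_sum_le_sum_abs _ _).trans ((sum_le_sum fun x _ => hx x).trans ?_)
  rw [sum_add_distrib, sum_add_distrib, sum_const, sum_const, card_univ, nsmul_eq_mul, nsmul_eq_mul, ← hq]
  have e2 : q * (2 * q ^ m / q) = 2 * q ^ m := by field_simp
  have e3 : q * (3 * q ^ m / q) = 3 * q ^ m := by field_simp
  rw [e2, e3]
  linarith

end

end Pool.Agent.V5helper57.Hyp
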