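import Pool.Agent.V5helper57.Hyp.Mom2
import Pool.Agent.H341R2.FieldSum

/-!
# The character sums over the quadratic extension
-/

set_option autoImplicit false

namespace Pool.Agent.V5helper57.Hyp

open Finset Polynomial
open Pool.Agent.N647.NG (ch ch_abs sum_ch sum_ch_affine card_sqrt sum_shift weil_odd)

section
variable {F : Type} [Field F] [Fintype F] [DecidableEq F] {E : Type} [Field E] [Fintype E] [DecidableEq E] [Algebra F E]
variable {g r m : ℕ}

theorem ch_ext (h2 : ringChar F ≠ 2) (hcard : Fintype.card E = Fintype.card F ^ 2) (z : F) :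
    ch (algebraMap F E z) = if z = 0 then 0 else 1 := by
  classical
  split_ifs with h
  · rw [h, map_zero, ch_zero']
  · have hfr : Module.finrank F E = 2 := by
      have h1 := Module.card_eq_pow_finrank (K := F) (V := E)
      rw [hcard] at h1
      exact (Nat.pow_right_injective Fintype.one_lt_card h1).symm
    have h1 := Pool.Agent.H341R2.Sharp.qc_norm (E := E) h2 (algebraMap F E z)
    rw [Algebra.norm_algebraMap, hfr, quadraticChar_sq_one' h] at h1
    unfold ch
    rw [h1]
    norm_num

theorem sum_plane (hcard : Fintype.card E = Fintype.card F ^ 2) {x : E} (hx : ∀ a : F, algebraMap F E a ≠ x) (G : E → ℝ) :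
    ∑ s : F, ∑ s' : F, G (algebraMap F E s' + algebraMap F E s * x) = ∑ z : E, G z := by
  rw [← Fintype.sum_prod_type' (f := fun s s' : F => G (algebraMap F E s' + algebraMap F E s * x))]
  refine Fintype.sum_bijective (fun s : F × F => algebraMap F E s.2 + algebraMap F E s.1 * x) ?_ _ _ fun _ => rfl
  rw [Fintype.bijective_iff_injective_and_card]
  constructor
  · rintro ⟨a, b⟩ ⟨c, d⟩ h
    have h1 : algebraMap F E b + algebraMap F E a * x = algebraMap F E d + algebraMap F E c * x := h
    have hac : a = c := by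
      by_contra hne
      have hne' : algebraMap F E (a - c) ≠ 0 := by
        intro h0
        apply hne
        have := (algebraMap F E).injective (h0.trans (map_zero _).symm)
        exact sub_eq_zero.1 this
      apply hx ((d - b) / (a - c))
      rw [map_div₀, div_eq_iff hne', map_sub, map_sub]
      linear_combination -h1
    subst hac
    have : b = d := (algebraMap F E).injective (add_right_cancel h1)
    rw [this]
  · rw [Fintype.card_prod, hcard, sq]

/-- Averages over the two-dimensional shifts. -/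
theorem avg2 (k : ℕ) (Φ : (Fin m → F) → ℝ) :
    ∑ t : Fin m → F, ∑ s : F, ∑ s' : F, Φ (fun i => t i + 1 * dir m k s' s i) = (Fintype.card F : ℝ) ^ 2 * ∑ t, Φ t := by
  rw [sum_comm]
  have h3 : ∀ s : F, ∑ t : Fin m → F, ∑ s' : F, Φ (fun i => t i + 1 * dir m k s' s i) = Fintype.card F * ∑ t, Φ t := by
    intro s
    rw [sum_comm, sum_congr rfl fun s' _ => sum_trans Φ (dir m k s' s), sum_const, card_univ, nsmul_eq_mul]
  rw [sum_congr rfl fun s _ => h3 s, sum_const, card_univ, nsmul_eq_mul]
  ring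

theorem AA_ne {x : E} (hx : ∀ a : F, algebraMap F E a ≠ x) (t : ℕ → F) : AA E r t x ≠ 0 := by
  intro h
  obtain ⟨i, _, hi⟩ := (AA_zero_iff r t x).1 h
  exact hx _ hi.symm

theorem ext_free (h2 : ringChar F ≠ 2) (hcard : Fintype.card E = Fintype.card F ^ 2) (hr : r < 2 * g) (hm : 2 * g + 1 < m)
    {x : E} (hx : ∀ a : F, algebraMap F E a ≠ x) : ∑ t : Fin m → F, ch (aeval x (fam g r (ex t))) = 0 := by
  have hE := ringChar_ext (F := F) (E := E) h2
  have h1 := avg2 (m := m) r (fun t : Fin m → F => ch (aeval x (fam g r (ex t))))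
  have h3 : ∀ t : Fin m → F, ∑ s : F, ∑ s' : F, ch (aeval x (fam g r (ex (fun i => t i + 1 * dir m r s' s i)))) = 0 := by
    intro t
    have h4 : ∀ s s' : F, aeval x (fam g r (ex (fun i => t i + 1 * dir m r s' s i))) =
        aeval x (fam g r (ex t)) + (algebraMap F E s' + algebraMap F E s * x) * AA E r (ex t) x := by
      intro s s'
      rw [aeval_fam, aeval_fam, AA_shift hm hr.le le_rfl (by omega), UU_shift hm hr.le _ _ (fun h => absurd h hr.ne),
        HH_same hr.le hm _ _ (fun h => absurd h hr.ne), map_one]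
      ring
    simp only [h4]
    rw [sum_plane hcard hx (fun z => ch (aeval x (fam g r (ex t)) + z * AA E r (ex t) x))]
    exact sum_ch_affine hE _ _ (AA_ne hx _)
  simp only [h3, sum_const_zero] at h1
  have hq2 : (Fintype.card F : ℝ) ^ 2 ≠ 0 := by
    have : (0 : ℝ) < Fintype.card F := by exact_mod_cast Fintype.card_pos
    positivity
  exact (mul_eq_zero.1 h1.symm).resolve_left hq2

theorem UU_one_ext (hr : r = 2 * g) (t : Fin m → F) (x : E) : UU E (2 * g + 1 - r) r (ex t) x = x + algebraMap F E (ex t r) := by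
  have : 2 * g + 1 - r = 1 := by omega
  unfold UU
  rw [this, sum_range_one, pow_one, pow_zero, mul_one, add_zero]

theorem ext_lin (h2 : ringChar F ≠ 2) (hcard : Fintype.card E = Fintype.card F ^ 2) (hg : 1 ≤ g) (hr : r = 2 * g) (hm : m = 3 * g + 2)
    {x : E} (hx : ∀ a : F, algebraMap F E a ≠ x) :
    (Fintype.card F : ℝ) ^ 2 * ∑ t : Fin m → F, ch (aeval x (fam g r (ex t))) = -(Fintype.card F : ℝ) ^ m := by
  classical
  have hE := ringChar_ext (F := F) (E := E) h2
  have h1 := avg2 (m := m) (2 * g + 1) (fun t : Fin m → F => ch (aeval x (fam g r (ex t))))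
  rw [← h1]
  have h3 : ∀ t : Fin m → F, ∑ s : F, ∑ s' : F, ch (aeval x (fam g r (ex (fun i => t i + 1 * dir m (2 * g + 1) s' s i)))) = -1 := by
    intro t
    obtain ⟨a, ha⟩ : ∃ a, a = AA E r (ex t) x * UU E (2 * g + 1 - r) r (ex t) x := ⟨_, rfl⟩
    have h4 : ∀ s s' : F, aeval x (fam g r (ex (fun i => t i + 1 * dir m (2 * g + 1) s' s i))) =
        a + (HH E g (ex t) x + (algebraMap F E s' + algebraMap F E s * x)) ^ 2 := by
      intro s s'
      rw [aeval_fam, AA_shift (g := g) (by omega) hr.le (by omega) (by omega), UU_same hr.le le_rfl (by omega),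
        HH_shift hg hm, map_one, ha]
      ring
    simp only [h4]
    rw [sum_plane hcard hx (fun z => ch (a + (HH E g (ex t) x + z) ^ 2))]
    have h6 : ∑ w : E, ch (a + (HH E g (ex t) x + w) ^ 2) = ∑ L : E, ch (a + L ^ 2) :=
      Fintype.sum_equiv (Equiv.addLeft (HH E g (ex t) x)) _ _ fun _ => rfl
    rw [h6]
    have h7 : ∑ L : E, ch (a + L ^ 2) = (if a = 0 then (Fintype.card E : ℝ) else 0) - 1 := Q282.BP.sum_shift_sq hE a
    rw [h7, if_neg, zero_sub]
    rw [ha, UU_one_ext hr]
    refine mul_ne_zero (AA_ne hx _) fun h => hx (-ex t r) ?_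
    rw [map_neg]
    linear_combination -h
  rw [sum_congr rfl fun t _ => h3 t, sum_const, card_univ, Fintype.card_fun, Fintype.card_fin, nsmul_eq_mul]
  push_cast
  ring

/-- **The mean over the quadratic extension.** -/
theorem moment_ext (h2 : ringChar F ≠ 2) (hcard : Fintype.card E = Fintype.card F ^ 2) (hg : 1 ≤ g) (hr : r ≤ 2 * g)
    (hm : m = 3 * g + 2) :
    |∑ t : Fin m → F, ∑ x : E, ch (aeval x (fam g r (ex t))) - Fintype.card F * (Fintype.card F : ℝ) ^ m| ≤
      3 * (Fintype.card F : ℝ) ^ m := by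
  classical
  have hm1 : 2 * g + 1 < m := by omega
  obtain ⟨q, hq⟩ : ∃ q : ℝ, q = Fintype.card F := ⟨_, rfl⟩
  have hq0 : 0 < q := by rw [hq]; exact_mod_cast Fintype.card_pos
  have hcd : (Fintype.card (Fin m → F) : ℝ) = q ^ m := by
    rw [Fintype.card_fun, Fintype.card_fin, hq]
    push_cast
    rfl
  obtain ⟨R, hR⟩ : ∃ R : Finset E, R = univ.image (algebraMap F E) := ⟨_, rfl⟩
  have hsplit : ∑ t : Fin m → F, ∑ x : E, ch (aeval x (fam g r (ex t))) =
      ∑ a : F, ∑ t : Fin m → F, ch (aeval (algebraMap F E a) (fam g r (ex t))) +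
      ∑ x ∈ univ \ R, ∑ t : Fin m → F, ch (aeval x (fam g r (ex t))) := by
    rw [sum_comm, ← sum_sdiff (subset_univ R), add_comm]
    congr 1
    rw [hR, sum_image (fun a _ b _ h => (algebraMap F E).injective h)]
  have hbase : ∀ a : F, |∑ t : Fin m → F, ch (aeval (algebraMap F E a) (fam g r (ex t))) - q ^ m| ≤ 2 * q ^ m / q := by
    intro a
    have h3 : ∀ t : Fin m → F, ch (aeval (algebraMap F E a) (fam g r (ex t))) = 1 - (if vl g r t a = 0 then (1 : ℝ) else 0) := by
      intro t
      rw [aeval_algebraMap_apply_eq_algebraMap_eval, vl_eq, ch_ext h2 hcard]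
      split_ifs <;> norm_num
    rw [sum_congr rfl fun t _ => h3 t, sum_sub_distrib, sum_const, card_univ, nsmul_eq_mul, mul_one, hcd, sum_boole,
      sub_sub_cancel_left, abs_neg, abs_of_nonneg (by positivity), le_div_iff₀ hq0, hq]
    exact zero_cnt hg hr hm a
  have hnew : ∀ x ∈ univ \ R, |∑ t : Fin m → F, ch (aeval x (fam g r (ex t)))| ≤ q ^ m / q ^ 2 := by
    intro x hx
    have hx' : ∀ a : F, algebraMap F E a ≠ x := by
      intro a ha
      apply (mem_sdiff.1 hx).2
      rw [hR, mem_image]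
      exact ⟨a, mem_univ _, ha⟩
    rcases hr.lt_or_eq with h | h
    · rw [ext_free h2 hcard h hm1 hx', abs_zero]
      positivity
    · have h3 := ext_lin h2 hcard hg h hm hx'
      have hq2 : 0 < q ^ 2 := by positivity
      rw [← hq] at h3
      rw [le_div_iff₀ hq2, ← abs_of_pos hq2, ← abs_mul, mul_comm, h3, abs_neg, abs_of_pos (by positivity)]
  have hqm : q * q ^ m = ∑ a : F, q ^ m := by
    rw [sum_const, card_univ, nsmul_eq_mul, hq]
  rw [← hq, hsplit]
  have e : ∑ a : F, ∑ t : Fin m → F, ch (aeval (algebraMap F E a) (fam g r (ex t))) +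
      ∑ x ∈ univ \ R, ∑ t : Fin m → F, ch (aeval x (fam g r (ex t))) - q * q ^ m =
      ∑ a : F, (∑ t : Fin m → F, ch (aeval (algebraMap F E a) (fam g r (ex t))) - q ^ m) +
      ∑ x ∈ univ \ R, ∑ t : Fin m → F, ch (aeval x (fam g r (ex t))) := by
    rw [sum_sub_distrib, hqm]
    ring
  rw [e]
  have h3 : |∑ a : F, (∑ t : Fin m → F, ch (aeval (algebraMap F E a) (fam g r (ex t))) - q ^ m)| ≤ 2 * q ^ m := by
    refine (abs_sum_le_sum_abs _ _).trans ((sum_le_sum fun a _ => hbase a).trans (le_of_eq ?_))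
    rw [sum_const, card_univ, nsmul_eq_mul, ← hq]
    field_simp
  have h4 : |∑ x ∈ univ \ R, ∑ t : Fin m → F, ch (aeval x (fam g r (ex t)))| ≤ q ^ m := by
    refine (abs_sum_le_sum_abs _ _).trans ((sum_le_sum hnew).trans ?_)
    rw [sum_const, nsmul_eq_mul]
    have h5 : ((univ \ R).card : ℝ) ≤ q ^ 2 := by
      have h6 : (univ \ R).card ≤ Fintype.card F ^ 2 := by
        rw [← hcard]
        exact card_le_univ _
      rw [hq]
      exact_mod_cast h6
    calc ((univ \ R).card : ℝ) * (q ^ m / q ^ 2) ≤ q ^ 2 * (q ^ m / q ^ 2) := by gcongr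
      _ = q ^ m := by field_simp
  refine (abs_add_le _ _).trans ?_
  linarith

end

end Pool.Agent.V5helper57.Hyp
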